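import Pool.Agent.Y482.Cy.Vol

/-!
# The blocks near `b = d = 0`, `c = i η`
-/

set_option autoImplicit false

namespace Pool.Agent.Y482.Cy

open Filter
open Complex (exp log cos sin I)
open Pool.Agent.Y482.Chi hiding tri_a1 tri_a2 tri_b1 tri_b2 blkAng blkCr blk_lf triX triY triZ z_sum dvol
open scoped Real Topology

/-! ### The inverse of the cosine -/

lemma acf_sp {R : ℂ} (hR : ‖R‖ ≤ 1 / 2) :
    1 - R ^ 2 ∈ Complex.slitPlane ∧ I * R + exp (log (1 - R ^ 2) / 2) ∈ Complex.slitPlane := by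
  have n0 := norm_nonneg R
  have h1 : ‖-R ^ 2‖ ≤ 1 / 4 := by
    rw [norm_neg, norm_pow]
    nlinarith
  have h2 := Complex.norm_log_one_add_half_le_self (z := -R ^ 2) (h1.trans (by norm_num))
  have h3 : ‖log (1 - R ^ 2) / 2‖ ≤ 3 / 16 := by
    rw [norm_div, show (1 : ℂ) - R ^ 2 = 1 + -R ^ 2 by ring]
    have : ‖(2 : ℂ)‖ = 2 := by norm_num
    rw [this]
    linarith
  have h4 := exp_le' (x := log (1 - R ^ 2) / 2) (h3.trans (by norm_num))
  refine ⟨sp_of_near ?_, ?_⟩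
  · rw [show 1 - R ^ 2 - 1 = -R ^ 2 by ring]
    linarith
  · rw [Complex.mem_slitPlane_iff]
    left
    have h5 : ‖I * R + exp (log (1 - R ^ 2) / 2) - 1‖ ≤ 3 / 4 := by
      rw [show I * R + exp (log (1 - R ^ 2) / 2) - 1 = I * R + (exp (log (1 - R ^ 2) / 2) - 1) by
        ring]
      refine (norm_add_le _ _).trans ?_
      rw [norm_mul, Complex.norm_I, one_mul]
      have := norm_nonneg (log (1 - R ^ 2) / 2)
      nlinarith
    have h6 := (Complex.abs_re_le_norm _).trans h5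
    rw [Complex.sub_re, Complex.one_re, abs_le] at h6
    linarith

lemma acf_diff {R : ℂ} (hR : ‖R‖ ≤ 1 / 2) : DifferentiableAt ℂ acf R := by
  obtain ⟨h1, h2⟩ := acf_sp hR
  have e1 : DifferentiableAt ℂ (fun R : ℂ => log (1 - R ^ 2)) R :=
    DifferentiableAt.clog (by fun_prop) h1
  have e2 : DifferentiableAt ℂ (fun R : ℂ => log (I * R + exp (log (1 - R ^ 2) / 2))) R :=
    DifferentiableAt.clog (by fun_prop) h2
  unfold acf
  exact (e2.const_mul I).const_add _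

lemma acf_cos' {R : ℂ} (hR : ‖R‖ ≤ 1 / 2) : cos (acf R) = R := by
  obtain ⟨h2, h3⟩ := acf_sp hR
  replace h2 := Complex.slitPlane_ne_zero h2
  replace h3 := Complex.slitPlane_ne_zero h3
  set Q := exp (log (1 - R ^ 2) / 2) with hQ
  have hQ2 : Q ^ 2 = 1 - R ^ 2 := by
    rw [hQ, ← Complex.exp_nat_mul]
    push_cast
    rw [show (2 : ℂ) * (log (1 - R ^ 2) / 2) = log (1 - R ^ 2) by ring, Complex.exp_log h2]
  have h4 : exp (log (I * R + Q)) = I * R + Q := Complex.exp_log h3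
  have h5 : exp (-log (I * R + Q)) = Q - I * R := by
    rw [Complex.exp_neg, h4, inv_eq_of_mul_eq_one_right]
    linear_combination hQ2 - R ^ 2 * Complex.I_sq
  unfold acf
  rw [← hQ, show (π : ℂ) / 2 + I * log (I * R + Q) = π / 2 - -(I * log (I * R + Q)) by ring,
    Complex.cos_pi_div_two_sub, Complex.sin]
  rw [show -(-(I * log (I * R + Q))) * I = -log (I * R + Q) by
      linear_combination (log (I * R + Q)) * Complex.I_sq,
    show -(I * log (I * R + Q)) * I = log (I * R + Q) by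
      linear_combination (-log (I * R + Q)) * Complex.I_sq, h4, h5]
  linear_combination (-R) * Complex.I_sq

lemma acf_real {r : ℝ} (h0 : 0 ≤ r) (h1 : r ≤ 1 / 2) : acf r = ((Real.arccos r : ℝ) : ℂ) := by
  have h2 : 0 < 1 - r ^ 2 := by nlinarith
  have e1 : (1 : ℂ) - (r : ℂ) ^ 2 = ((1 - r ^ 2 : ℝ) : ℂ) := by push_cast; ring
  have e2 : exp (log (1 - (r : ℂ) ^ 2) / 2) = ((Real.cos (Real.arcsin r) : ℝ) : ℂ) := by
    rw [e1, ← Complex.ofReal_log h2.le, Real.cos_arcsin]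
    have : ((Real.log (1 - r ^ 2) : ℝ) : ℂ) / 2 = ((Real.log (1 - r ^ 2) / 2 : ℝ) : ℂ) := by
      push_cast; ring
    rw [this, ← Complex.ofReal_exp]
    congr 1
    rw [eq_comm, Real.sqrt_eq_iff_mul_self_eq h2.le (Real.exp_pos _).le, ← Real.exp_add,
      show Real.log (1 - r ^ 2) / 2 + Real.log (1 - r ^ 2) / 2 = Real.log (1 - r ^ 2) by ring,
      Real.exp_log h2]
  have e3 : I * (r : ℂ) + ((Real.cos (Real.arcsin r) : ℝ) : ℂ) =
      exp ((Real.arcsin r : ℝ) * I) := by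
    rw [Complex.exp_mul_I, ← Complex.ofReal_cos, ← Complex.ofReal_sin,
      Real.sin_arcsin (by linarith) (by linarith)]
    ring
  have hpi := Real.pi_pos
  unfold acf
  rw [e2, e3, Complex.log_exp]
  · rw [Real.arccos]
    push_cast
    linear_combination ((Real.arcsin r : ℝ) : ℂ) * Complex.I_sq
  · simp only [Complex.mul_im, Complex.ofReal_re, Complex.I_im, mul_one, Complex.ofReal_im,
      Complex.I_re, mul_zero, add_zero]
    linarith [Real.neg_pi_div_two_le_arcsin r]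
  · simp only [Complex.mul_im, Complex.ofReal_re, Complex.I_im, mul_one, Complex.ofReal_im,
      Complex.I_re, mul_zero, add_zero]
    linarith [Real.arcsin_le_pi_div_two r]

lemma cos_unique' {x y : ℂ} (hx : |x.re - π / 2| ≤ π / 8) (hy : |y.re - π / 2| ≤ π / 8)
    (h : cos x = cos y) : x = y := by
  have hpi := Real.pi_pos
  rw [abs_le] at hx hy
  obtain ⟨k, hk⟩ := Complex.cos_eq_cos_iff.1 h
  have e : ((2 : ℂ) * k * π).re = 2 * k * π := by
    have : ((2 : ℂ) * k * π) = ((2 * k * π : ℝ) : ℂ) := by push_cast; ring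
    rw [this, Complex.ofReal_re]
  rcases hk with hk | hk
  · have h1 := congrArg Complex.re hk
    rw [Complex.add_re, e] at h1
    have h2 : (k : ℝ) < 1 := by
      by_contra hc
      rw [not_lt] at hc
      nlinarith
    have h3 : (-1 : ℝ) < k := by
      by_contra hc
      rw [not_lt] at hc
      nlinarith
    have h2' : k < 1 := by exact_mod_cast h2
    have h3' : -1 < k := by exact_mod_cast h3
    have : k = 0 := by omega
    rw [hk, this]
    simp
  · exfalso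
    have h1 := congrArg Complex.re hk
    rw [Complex.sub_re, e] at h1
    have h2 : (k : ℝ) < 1 := by
      by_contra hc
      rw [not_lt] at hc
      nlinarith
    have h3 : (0 : ℝ) < k := by
      by_contra hc
      rw [not_lt] at hc
      nlinarith
    have h2' : k < 1 := by exact_mod_cast h2
    have h3' : 0 < k := by exact_mod_cast h3
    omega

/-! ### The windows -/

lemma ev_log {X : Type*} [TopologicalSpace X] {f : X → ℂ} {x : X} (hf : ContinuousAt f x)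
    {r φ δ : ℝ} (hr : 0 < r) (h1 : -π < φ) (h2 : φ < π) (h0 : f x = r * exp (φ * I))
    (hδ : 0 < δ) : ∀ᶠ p in 𝓝 x, f p ≠ 0 ∧ |(log (f p)).im - φ| ≤ δ := by
  have e1 : (log (f x)).im = φ := by
    rw [h0, Complex.log_im, Complex.exp_mul_I, Complex.arg_mul_cos_add_sin_mul_I hr ⟨h1, h2.le⟩]
  have e2 : f x ≠ 0 := by
    rw [h0]
    exact mul_ne_zero (Complex.ofReal_ne_zero.2 hr.ne') (Complex.exp_ne_zero _)
  have e3 : f x ∈ Complex.slitPlane := by
    rw [Complex.mem_slitPlane_iff_arg]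
    refine ⟨?_, e2⟩
    rw [← Complex.log_im, e1]
    exact h2.ne
  have e4 : ContinuousAt (fun p => |(log (f p)).im - φ|) x :=
    ((Complex.continuous_im.continuousAt.comp (hf.clog e3)).sub continuousAt_const).abs
  have e5 : |(log (f x)).im - φ| < δ := by rw [e1, sub_self, abs_zero]; exact hδ
  filter_upwards [hf.eventually_ne e2, e4.eventually_lt continuousAt_const e5] with p h3 h4
  exact ⟨h3, h4.le⟩

lemma ev_re {X : Type*} [TopologicalSpace X] {f : X → ℂ} {x : X} (hf : ContinuousAt f x)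
    {a δ : ℝ} (h0 : (f x).re = a) (hδ : 0 < δ) : ∀ᶠ p in 𝓝 x, |(f p).re - a| ≤ δ := by
  have e4 : ContinuousAt (fun p => |(f p).re - a|) x :=
    ((Complex.continuous_re.continuousAt.comp hf).sub continuousAt_const).abs
  have e5 : |(f x).re - a| < δ := by rw [h0, sub_self, abs_zero]; exact hδ
  filter_upwards [e4.eventually_lt continuousAt_const e5] with p h4
  exact h4.le

/-- `cos u` at the base point -/
noncomputable def rη (η : ℝ) : ℝ := (Real.cosh (2 * η) - 1) / (3 + Real.cosh (2 * η))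

/-- half of `u` at the base point -/
noncomputable def aη (η : ℝ) : ℝ := Real.arccos (rη η) / 2

/-- the angle `arctan e^η` -/
noncomputable def φη (η : ℝ) : ℝ := Real.arctan (Real.exp η)

lemma rη_nonneg (η : ℝ) : 0 ≤ rη η := by
  unfold rη
  have := Real.one_le_cosh (2 * η)
  exact div_nonneg (by linarith) (by linarith)

lemma rη_lt (η : ℝ) : rη η < 1 := by
  unfold rη
  have := Real.one_le_cosh (2 * η)
  rw [div_lt_one (by linarith)]
  linarith

/-- the elementary facts at the base point -/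
lemma base_trig (η : ℝ) : 0 < aη η ∧ aη η ≤ π / 4 ∧ 0 < Real.sin (aη η) ∧ 0 < Real.cos (aη η) ∧
    Real.sin (aη η) * Real.cosh η = Real.cos (aη η) := by
  have r0 := rη_nonneg η
  have r1 := rη_lt η
  have hpi := Real.pi_pos
  have a0 : 0 < aη η := by
    unfold aη
    have := Real.arccos_pos.2 r1
    linarith
  have a1 : aη η ≤ π / 4 := by
    unfold aη
    have := Real.arccos_le_pi_div_two.2 r0
    linarith
  have s0 : 0 < Real.sin (aη η) := Real.sin_pos_of_pos_of_lt_pi a0 (by linarith)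
  have c0 : 0 < Real.cos (aη η) := Real.cos_pos_of_mem_Ioo ⟨by linarith, by linarith⟩
  refine ⟨a0, a1, s0, c0, ?_⟩
  have e1 : Real.cos (2 * aη η) = rη η := by
    unfold aη
    rw [mul_div_cancel₀ _ two_ne_zero, Real.cos_arccos (by linarith) r1.le]
  have hC := Real.cosh_pos η
  have e2 : rη η * (1 + Real.cosh η ^ 2) = Real.cosh η ^ 2 - 1 := by
    unfold rη
    rw [Real.cosh_two_mul, Real.sinh_sq, div_mul_eq_mul_div, div_eq_iff (by nlinarith)]
    ring
  have e3 : (Real.sin (aη η) * Real.cosh η) ^ 2 = Real.cos (aη η) ^ 2 := by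
    have k1 : Real.cos (aη η) ^ 2 = (1 + rη η) / 2 := by
      rw [← e1, Real.cos_two_mul]; ring
    have k2 : Real.sin (aη η) ^ 2 = (1 - rη η) / 2 := by
      rw [Real.sin_sq, k1]; ring
    rw [mul_pow, k1, k2]
    linear_combination (-1 / 2) * e2
  exact (pow_left_inj₀ (by positivity) c0.le two_ne_zero).1 e3

lemma base_phi {η : ℝ} (h0 : 0 ≤ η) : π / 4 ≤ φη η ∧ φη η < π / 2 ∧
    ∃ s : ℝ, 0 < s ∧ s * Real.cos (φη η) = 1 ∧ s * Real.sin (φη η) = Real.exp η := by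
  refine ⟨?_, Real.arctan_lt_pi_div_two _, √(1 + Real.exp η ^ 2), by positivity, ?_, ?_⟩
  · rw [← Real.arctan_one]
    exact Real.arctan_strictMono.monotone (Real.one_le_exp h0)
  · unfold φη
    rw [Real.cos_arctan]
    field_simp
  · unfold φη
    rw [Real.sin_arctan]
    field_simp

/-- the sum of the angles -/
lemma base_sum {η : ℝ} (h0 : 0 ≤ η) : aη η + (2 * φη η - π / 2) < π / 2 := by
  obtain ⟨a0, a1, s0, c0, hs⟩ := base_trig η
  obtain ⟨p0, p1, s, hs0, hs1, hs2⟩ := base_phi h0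
  have hpi := Real.pi_pos
  have hE := Real.exp_pos η
  have k1 : 0 < Real.cos (aη η + (2 * φη η - π / 2)) := by
    have e1 : Real.cos (aη η + (2 * φη η - π / 2)) = Real.sin (aη η + 2 * φη η) := by
      rw [← Real.cos_sub_pi_div_two]; congr 1; ring
    rw [e1, Real.sin_add, Real.sin_two_mul, Real.cos_two_mul]
    have e2 : s ^ 2 * (Real.sin (aη η) * (2 * Real.cos (φη η) ^ 2 - 1) +
        Real.cos (aη η) * (2 * Real.sin (φη η) * Real.cos (φη η))) =
        2 * Real.sin (aη η) := by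
      have e3 : s ^ 2 = 1 + Real.exp η ^ 2 := by
        have := Real.sin_sq_add_cos_sq (φη η)
        linear_combination (-s ^ 2) * this + (s * Real.cos (φη η) + 1) * hs1 +
          (s * Real.sin (φη η) + Real.exp η) * hs2
      have e4 : Real.cosh η * (2 * Real.exp η) = 1 + Real.exp η ^ 2 := by
        rw [Real.cosh_eq, Real.exp_neg]
        field_simp
        ring
      rw [← hs]
      linear_combination (2 * Real.sin (aη η)) * (s * Real.cos (φη η) + 1) * hs1 -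
        Real.sin (aη η) * e3 + (2 * Real.sin (aη η) * Real.cosh η) * (s * Real.cos (φη η)) * hs2 +
        (2 * Real.sin (aη η) * Real.cosh η * Real.exp η) * hs1 + Real.sin (aη η) * e4
    by_contra hc
    rw [not_lt] at hc
    have : s ^ 2 * (Real.sin (aη η) * (2 * Real.cos (φη η) ^ 2 - 1) +
        Real.cos (aη η) * (2 * Real.sin (φη η) * Real.cos (φη η))) ≤ 0 :=
      mul_nonpos_of_nonneg_of_nonpos (by positivity) hc
    linarith
  by_contra hc
  rw [not_lt] at hc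
  have := Real.cos_nonpos_of_pi_div_two_le_of_le hc (by linarith)
  linarith

/-- the window of the base point -/
lemma base_delta {η : ℝ} (h0 : 0 ≤ η) : ∃ δ : ℝ, (0 < δ ∧ δ ≤ 1 / 100) ∧ 20 * δ ≤ aη η ∧
    aη η + (2 * φη η - π / 2) ≤ π / 2 - 20 * δ ∧ aη η - (2 * φη η - π / 2) ≤ π / 2 - 20 * δ := by
  obtain ⟨a0, a1, -⟩ := base_trig η
  obtain ⟨p0, p1, -⟩ := base_phi h0
  have hs := base_sum h0
  refine ⟨min (1 / 100) (min (aη η / 20) ((π / 2 - (aη η + (2 * φη η - π / 2))) / 20)),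
    ⟨?_, min_le_left _ _⟩, ?_, ?_, ?_⟩
  · refine lt_min (by norm_num) (lt_min (by linarith) ?_)
    linarith
  · have := (min_le_right (1 / 100) (min (aη η / 20) ((π / 2 - (aη η + (2 * φη η - π / 2))) / 20))).trans
      (min_le_left _ _)
    linarith
  · have := (min_le_right (1 / 100) (min (aη η / 20) ((π / 2 - (aη η + (2 * φη η - π / 2))) / 20))).trans
      (min_le_right _ _)
    linarith
  · have := (min_le_right (1 / 100) (min (aη η / 20) ((π / 2 - (aη η + (2 * φη η - π / 2))) / 20))).trans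
      (min_le_right _ _)
    linarith

/-- the values at the base point -/
lemma base_val {η : ℝ} (h0 : 0 ≤ η) : ∃ s : ℝ, 0 < s ∧
    sin ((aη η : ℂ) + η * I) = ((Real.cos (aη η) * Real.cosh η : ℝ) : ℂ) *
      exp ((2 * φη η - π / 2 : ℝ) * I) ∧
    sin ((aη η : ℂ) - η * I) = ((Real.cos (aη η) * Real.cosh η : ℝ) : ℂ) *
      exp ((-(2 * φη η - π / 2) : ℝ) * I) ∧
    uph (aη η) 0 (η * I) = ((Real.cos (aη η) * s * Real.exp (-η) : ℝ) : ℂ) * exp ((φη η : ℝ) * I) ∧
    uph (aη η) (-0) (-(η * I)) = ((Real.cos (aη η) * s : ℝ) : ℂ) *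
      exp ((π / 2 - φη η : ℝ) * I) ∧
    1 - I * exp (I * (0 + η * I)) = ((s * Real.exp (-η) : ℝ) : ℂ) *
      exp ((-(π / 2 - φη η) : ℝ) * I) ∧
    1 - I * exp (I * -(0 + η * I)) = (s : ℂ) * exp ((-φη η : ℝ) * I) := by
  obtain ⟨a0, a1, s0, c0, hs⟩ := base_trig η
  obtain ⟨p0, p1, s, hs0, hs1, hs2⟩ := base_phi h0
  have hE := Real.exp_pos η
  have hEE : Real.exp η * Real.exp (-η) = 1 := by rw [← Real.exp_add]; simp
  have hC : Real.cosh η = (Real.exp η + Real.exp (-η)) / 2 := Real.cosh_eq η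
  have hS : Real.sinh η = (Real.exp η - Real.exp (-η)) / 2 := Real.sinh_eq η
  have e3 : s ^ 2 = 1 + Real.exp η ^ 2 := by
    have := Real.sin_sq_add_cos_sq (φη η)
    linear_combination (-s ^ 2) * this + (s * Real.cos (φη η) + 1) * hs1 +
      (s * Real.sin (φη η) + Real.exp η) * hs2
  have e4 : Real.cosh η * (2 * Real.exp η) = s ^ 2 := by
    rw [e3, hC]
    linear_combination hEE
  have hs' : s ≠ 0 := hs0.ne'
  -- cos and sin of `2 φ`
  have d1 : Real.cosh η * Real.sin (2 * φη η) = 1 := by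
    rw [Real.sin_two_mul]
    have : s ^ 2 * (Real.cosh η * (2 * Real.sin (φη η) * Real.cos (φη η)) - 1) = 0 := by
      linear_combination (2 * Real.cosh η * s * Real.cos (φη η)) * hs2 +
        (2 * Real.cosh η * Real.exp η) * hs1 + e4
    rcases mul_eq_zero.1 this with h | h
    · exact absurd h (by positivity)
    · linarith
  have d2 : Real.cosh η * Real.cos (2 * φη η) = -Real.sinh η := by
    rw [Real.cos_two_mul]
    have : s ^ 2 * (Real.cosh η * (2 * Real.cos (φη η) ^ 2 - 1) + Real.sinh η) = 0 := by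
      have e5 : Real.cosh η * (2 - s ^ 2) + Real.sinh η * s ^ 2 = 0 := by
        rw [e3, hC, hS]
        linear_combination (-Real.exp η) * hEE
      linear_combination (2 * Real.cosh η) * (s * Real.cos (φη η) + 1) * hs1 + e5
    rcases mul_eq_zero.1 this with h | h
    · exact absurd h (by positivity)
    · linarith
  have cc : cos ((η : ℂ) * I) = (Real.cosh η : ℂ) := by rw [Complex.cos_mul_I, Complex.ofReal_cosh]
  have ss : sin ((η : ℂ) * I) = (Real.sinh η : ℂ) * I := by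
    rw [Complex.sin_mul_I, Complex.ofReal_sinh]
  have ex : ∀ x : ℝ, exp ((x : ℝ) * I) = (Real.cos x : ℂ) + (Real.sin x : ℂ) * I := by
    intro x
    rw [Complex.exp_mul_I, Complex.ofReal_cos, Complex.ofReal_sin]
  have hsC : (Real.sin (aη η) : ℂ) * (Real.cosh η : ℂ) = (Real.cos (aη η) : ℂ) := by
    exact_mod_cast hs
  have d1C : (Real.cosh η : ℂ) * (Real.sin (2 * φη η) : ℂ) = 1 := by exact_mod_cast d1
  have d2C : (Real.cosh η : ℂ) * (Real.cos (2 * φη η) : ℂ) = -(Real.sinh η : ℂ) := by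
    exact_mod_cast d2
  have h1C : (s : ℂ) * (Real.cos (φη η) : ℂ) = 1 := by exact_mod_cast hs1
  have h2C : (s : ℂ) * (Real.sin (φη η) : ℂ) = (Real.exp η : ℂ) := by exact_mod_cast hs2
  have hEC : (Real.exp η : ℂ) * (Real.exp (-η) : ℂ) = 1 := by exact_mod_cast hEE
  have hCC : (Real.cosh η : ℂ) = ((Real.exp η : ℂ) + (Real.exp (-η) : ℂ)) / 2 := by
    exact_mod_cast hC
  have hSC : (Real.sinh η : ℂ) = ((Real.exp η : ℂ) - (Real.exp (-η) : ℂ)) / 2 := by
    exact_mod_cast hS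
  have t1 : Real.cos (2 * φη η - π / 2) = Real.sin (2 * φη η) := Real.cos_sub_pi_div_two _
  have t2 : Real.sin (2 * φη η - π / 2) = -Real.cos (2 * φη η) := Real.sin_sub_pi_div_two _
  have t3 : Real.cos (-(2 * φη η - π / 2)) = Real.sin (2 * φη η) := by rw [Real.cos_neg, t1]
  have t4 : Real.sin (-(2 * φη η - π / 2)) = Real.cos (2 * φη η) := by
    rw [Real.sin_neg, t2, neg_neg]
  have t5 : Real.cos (-(π / 2 - φη η)) = Real.sin (φη η) := by
    rw [Real.cos_neg, Real.cos_pi_div_two_sub]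
  have t6 : Real.sin (-(π / 2 - φη η)) = -Real.cos (φη η) := by
    rw [Real.sin_neg, Real.sin_pi_div_two_sub]
  have x1 : exp (I * ((aη η : ℂ) + η * I)) = ((Real.cos (aη η) : ℂ) + (Real.sin (aη η) : ℂ) * I) *
      (Real.exp (-η) : ℂ) := by
    rw [← ex, Complex.ofReal_exp, ← Complex.exp_add]
    congr 1
    push_cast
    linear_combination (η : ℂ) * Complex.I_sq
  have x2 : exp (I * ((aη η : ℂ) + -(η * I))) =
      ((Real.cos (aη η) : ℂ) + (Real.sin (aη η) : ℂ) * I) * (Real.exp η : ℂ) := by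
    rw [← ex, Complex.ofReal_exp, ← Complex.exp_add]
    congr 1
    linear_combination (-(η : ℂ)) * Complex.I_sq
  have x3 : exp (I * (0 + η * I)) = (Real.exp (-η) : ℂ) := by
    rw [Complex.ofReal_exp]
    congr 1
    push_cast
    linear_combination (η : ℂ) * Complex.I_sq
  have x4 : exp (I * -(0 + η * I)) = (Real.exp η : ℂ) := by
    rw [Complex.ofReal_exp]
    congr 1
    linear_combination (-(η : ℂ)) * Complex.I_sq
  refine ⟨s, hs0, ?_, ?_, ?_, ?_, ?_, ?_⟩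
  · rw [Complex.sin_add, cc, ss, ex, t1, t2, ← Complex.ofReal_sin, ← Complex.ofReal_cos]
    push_cast at *
    linear_combination hsC - (Complex.cos (aη η)) * d1C + (Complex.cos (aη η) * I) * d2C
  · rw [Complex.sin_sub, cc, ss, ex, t3, t4, ← Complex.ofReal_sin, ← Complex.ofReal_cos]
    push_cast at *
    linear_combination hsC - (Complex.cos (aη η)) * d1C - (Complex.cos (aη η) * I) * d2C
  · unfold uph
    rw [x1, ss, ex, Complex.cos_zero, ← Complex.ofReal_sin]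
    simp only [Complex.ofReal_mul]
    linear_combination (-((Real.cos (aη η) : ℂ) * (Real.exp (-η) : ℂ))) * h1C -
      (Real.cos (aη η) : ℂ) * (Real.exp (-η) : ℂ) * I * h2C - (Real.cos (aη η) : ℂ) * I * hEC +
      I * (Real.sin (aη η) : ℂ) * hSC - I * (Real.sin (aη η) : ℂ) * hCC + I * hsC
  · unfold uph
    rw [neg_zero, x2, Complex.sin_neg, ss, ex, Complex.cos_zero, Real.cos_pi_div_two_sub,
      Real.sin_pi_div_two_sub, ← Complex.ofReal_sin]
    simp only [Complex.ofReal_mul]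
    linear_combination (-(Real.cos (aη η) : ℂ)) * h2C - (Real.cos (aη η) : ℂ) * I * h1C -
      I * (Real.sin (aη η) : ℂ) * hSC - I * (Real.sin (aη η) : ℂ) * hCC + I * hsC
  · rw [x3, ex, t5, t6]
    simp only [Complex.ofReal_mul, Complex.ofReal_neg]
    linear_combination (-(Real.exp (-η) : ℂ)) * h2C + (Real.exp (-η) : ℂ) * I * h1C - hEC
  · rw [x4, ex, Real.cos_neg, Real.sin_neg]
    push_cast at *
    linear_combination (-1 : ℂ) * h1C + I * h2C

/-! ### The neighbourhood -/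

/-- the domain of a block (some window) -/
def BZ (a b d c : ℂ) : Prop := ∃ θ a0 δ : ℝ, BY θ a0 δ a b d c

/-- the good points -/
def Gd (p : ℂ × ℂ × ℂ) : Prop :=
  BZ (acf (Rf p.1 p.2.1 p.2.2) / 2) p.1 p.2.1 p.2.2 ∧
  1 + cos (2 * p.2.2) + cos (2 * p.1) + cos (2 * p.2.1) ≠ 0 ∧ ‖Rf p.1 p.2.1 p.2.2‖ ≤ 1 / 2 ∧
  |(acf (Rf p.1 p.2.1 p.2.2)).re - π / 2| ≤ π / 8

lemma cos_num : 3 / 8 < Real.cos (3 * π / 8) := by
  have e : Real.cos (3 * π / 8) = Real.sin (π / 8) := by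
    rw [← Real.cos_pi_div_two_sub]; congr 1; ring
  rw [e, Real.sin_pi_div_eight]
  have h1 : √2 ≤ 142 / 100 := by
    rw [Real.sqrt_le_left (by norm_num)]; norm_num
  have h2 : 3 / 4 < √(2 - √2) := by
    rw [Real.lt_sqrt (by norm_num)]
    linarith
  linarith

lemma rη_num {η : ℝ} (h0 : 0 ≤ η) (h1 : η ≤ 9 / 10) : rη η < 3 / 8 := by
  have e1 : Real.exp (9 / 5) < 31 / 5 := by
    refine lt_of_pow_lt_pow_left₀ 5 (by norm_num) ?_
    rw [← Real.exp_nat_mul]
    have e2 : ((5 : ℕ) : ℝ) * (9 / 5) = ((9 : ℕ) : ℝ) * 1 := by norm_num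
    rw [e2, Real.exp_nat_mul]
    have e3 := Real.exp_one_lt_d9
    calc Real.exp 1 ^ 9 ≤ 2.7182818286 ^ 9 := by
          exact pow_le_pow_left₀ (Real.exp_pos 1).le e3.le 9
      _ < _ := by norm_num
  have e2 : Real.exp (-(9 / 5)) ≤ 5 / 14 := by
    rw [Real.exp_neg, inv_le_comm₀ (Real.exp_pos _) (by norm_num)]
    have := Real.add_one_le_exp (9 / 5)
    linarith
  have e3 : Real.cosh (2 * η) ≤ Real.cosh (9 / 5) := by
    rw [Real.cosh_le_cosh, abs_of_nonneg (by linarith), abs_of_nonneg (by norm_num)]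
    linarith
  have e4 : Real.cosh (9 / 5) < 33 / 10 := by
    rw [Real.cosh_eq]
    linarith
  have e5 := Real.one_le_cosh (2 * η)
  unfold rη
  rw [div_lt_iff₀ (by linarith)]
  linarith

lemma rf_base (η : ℝ) : Rf 0 0 (η * I) = ((rη η : ℝ) : ℂ) ∧
    1 + cos (2 * (η * I)) + cos (2 * (0 : ℂ)) + cos (2 * (0 : ℂ)) =
      ((3 + Real.cosh (2 * η) : ℝ) : ℂ) := by
  have e1 : cos (2 * ((η : ℂ) * I)) = ((Real.cosh (2 * η) : ℝ) : ℂ) := by
    rw [show 2 * ((η : ℂ) * I) = ((2 * η : ℝ) : ℂ) * I by push_cast; ring, Complex.cos_mul_I,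
      Complex.ofReal_cosh]
  constructor
  · unfold Rf rη
    rw [e1, mul_zero, Complex.cos_zero]
    push_cast
    congr 1 <;> ring
  · rw [e1, mul_zero, Complex.cos_zero]
    push_cast
    ring

theorem ev_good {η : ℝ} (h0 : 0 ≤ η) (h1 : η ≤ 9 / 10) :
    ∀ᶠ p in 𝓝 ((0 : ℂ), (0 : ℂ), (η : ℂ) * I), Gd p := by
  obtain ⟨r1, r2⟩ := rf_base η
  have q0 := rη_nonneg η
  have q1 := rη_num h0 h1
  obtain ⟨x, hx⟩ : ∃ x : ℂ × ℂ × ℂ, x = ((0 : ℂ), (0 : ℂ), (η : ℂ) * I) := ⟨_, rfl⟩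
  have x1 : x.1 = 0 := by rw [hx]
  have x2 : x.2.1 = 0 := by rw [hx]
  have x3 : x.2.2 = η * I := by rw [hx]
  rw [← hx]
  have hden0 : 1 + cos (2 * x.2.2) + cos (2 * x.1) + cos (2 * x.2.1) ≠ 0 := by
    rw [x1, x2, x3, r2]
    have := Real.one_le_cosh (2 * η)
    exact Complex.ofReal_ne_zero.2 (by linarith)
  have hRc : ContinuousAt (fun p : ℂ × ℂ × ℂ => Rf p.1 p.2.1 p.2.2) x := by
    unfold Rf
    exact ContinuousAt.div (by fun_prop) (by fun_prop) hden0
  have hR0 : Rf x.1 x.2.1 x.2.2 = ((rη η : ℝ) : ℂ) := by rw [x1, x2, x3, r1]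
  have hRn : ‖Rf x.1 x.2.1 x.2.2‖ < 1 / 2 := by
    rw [hR0, Complex.norm_real, Real.norm_eq_abs, abs_of_nonneg q0]
    linarith
  have hac : ContinuousAt (fun p : ℂ × ℂ × ℂ => acf (Rf p.1 p.2.1 p.2.2)) x :=
    ContinuousAt.comp (f := fun p : ℂ × ℂ × ℂ => Rf p.1 p.2.1 p.2.2) (acf_diff hRn.le).continuousAt
      hRc
  have ha0 : acf (Rf x.1 x.2.1 x.2.2) = ((Real.arccos (rη η) : ℝ) : ℂ) := by
    rw [hR0, acf_real q0 (by linarith)]
  obtain ⟨A, hA⟩ : ∃ A : ℂ × ℂ × ℂ → ℂ, A = fun p => acf (Rf p.1 p.2.1 p.2.2) / 2 := ⟨_, rfl⟩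
  have hAc : ContinuousAt A x := by rw [hA]; exact hac.div_const 2
  have hA0 : A x = (aη η : ℂ) := by
    rw [hA]
    simp only
    rw [ha0]
    unfold aη
    push_cast
    ring
  obtain ⟨a0, a1, s0, c0, hs⟩ := base_trig η
  obtain ⟨p0, p1, -⟩ := base_phi h0
  obtain ⟨δ, hδ, w1, w2, w3⟩ := base_delta h0
  obtain ⟨s, s1, v1, v2, v3, v4, v5, v6⟩ := base_val h0
  have hpi := Real.pi_pos
  have hch := Real.cosh_pos η
  have one : ∀ r : ℝ, (r : ℂ) = (r : ℂ) * exp ((0 : ℝ) * I) := fun r => by simp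
  have cc : cos ((η : ℂ) * I) = (Real.cosh η : ℂ) := by rw [Complex.cos_mul_I, Complex.ofReal_cosh]
  have cn : cos (-((η : ℂ) * I)) = (Real.cosh η : ℂ) := by rw [Complex.cos_neg, cc]
  have L0 : -π < (0 : ℝ) := by linarith
  have L1 : (0 : ℝ) < π := hpi
  -- the events
  have g1 := ev_log (X := ℂ × ℂ × ℂ) (x := x) (f := fun p => cos p.1) (by fun_prop) one_pos L0 L1
    (by simp [x1]) hδ.1
  have g2 := ev_log (X := ℂ × ℂ × ℂ) (x := x) (f := fun p => cos p.2.1) (by fun_prop) one_pos L0 L1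
    (by simp [x2]) hδ.1
  have g3 := ev_log (X := ℂ × ℂ × ℂ) (x := x) (f := fun p => cos (p.1 + p.2.2)) (by fun_prop) hch
    L0 L1 (by rw [← one, x1, x3, zero_add, cc]) hδ.1
  have g4 := ev_log (X := ℂ × ℂ × ℂ) (x := x) (f := fun p => cos (p.1 - p.2.2)) (by fun_prop) hch
    L0 L1 (by rw [← one, x1, x3, zero_sub, cn]) hδ.1
  have g5 := ev_log (X := ℂ × ℂ × ℂ) (x := x) (f := fun p => cos (-p.2.1 + -p.2.2)) (by fun_prop)
    hch L0 L1 (by rw [← one, x2, x3, neg_zero, zero_add, cn]) hδ.1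
  have g6 := ev_log (X := ℂ × ℂ × ℂ) (x := x) (f := fun p => cos (p.2.1 - p.2.2)) (by fun_prop) hch
    L0 L1 (by rw [← one, x2, x3, zero_sub, cn]) hδ.1
  have g7 := ev_log (X := ℂ × ℂ × ℂ) (x := x) (f := fun p => cos (A p + p.1)) (by fun_prop) c0
    L0 L1 (by rw [← one, hA0, x1, add_zero, Complex.ofReal_cos]) hδ.1
  have g8 := ev_log (X := ℂ × ℂ × ℂ) (x := x) (f := fun p => cos (A p - p.1)) (by fun_prop) c0
    L0 L1 (by rw [← one, hA0, x1, sub_zero, Complex.ofReal_cos]) hδ.1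
  have g9 := ev_log (X := ℂ × ℂ × ℂ) (x := x) (f := fun p => cos (A p + -p.2.1)) (by fun_prop) c0
    L0 L1 (by rw [← one, hA0, x2, neg_zero, add_zero, Complex.ofReal_cos]) hδ.1
  have g10 := ev_log (X := ℂ × ℂ × ℂ) (x := x) (f := fun p => cos (A p - -p.2.1)) (by fun_prop) c0
    L0 L1 (by rw [← one, hA0, x2, neg_zero, sub_zero, Complex.ofReal_cos]) hδ.1
  have g11 := ev_log (X := ℂ × ℂ × ℂ) (x := x) (f := fun p => sin (A p)) (by fun_prop) s0
    L0 L1 (by rw [← one, hA0, Complex.ofReal_sin]) hδ.1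
  have g12 := ev_log (X := ℂ × ℂ × ℂ) (x := x) (f := fun p => sin (A p + p.2.2)) (by fun_prop)
    (mul_pos c0 hch) (φ := 2 * φη η - π / 2) (by linarith) (by linarith)
    (by rw [hA0, x3]; exact v1) hδ.1
  have g13 := ev_log (X := ℂ × ℂ × ℂ) (x := x) (f := fun p => sin (A p + -p.2.2)) (by fun_prop)
    (mul_pos c0 hch) (φ := -(2 * φη η - π / 2)) (by linarith) (by linarith)
    (by rw [hA0, x3, ← sub_eq_add_neg]; exact v2) hδ.1
  have g14 := ev_log (X := ℂ × ℂ × ℂ) (x := x) (f := fun p => uph (A p) p.1 p.2.2)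
    (by unfold uph; fun_prop)
    (mul_pos (mul_pos c0 s1) (Real.exp_pos (-η))) (φ := φη η) (by linarith) (by linarith)
    (by rw [hA0, x1, x3]; exact v3) hδ.1
  have g15 := ev_log (X := ℂ × ℂ × ℂ) (x := x) (f := fun p => uph (A p) (-p.2.1) (-p.2.2))
    (by unfold uph; fun_prop) (mul_pos c0 s1) (φ := π / 2 - φη η) (by linarith) (by linarith)
    (by rw [hA0, x2, x3]; exact v4) hδ.1
  have g16 := ev_log (X := ℂ × ℂ × ℂ) (x := x) (f := fun p => 1 - I * exp (I * (p.1 + p.2.2)))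
    (by fun_prop) (mul_pos s1 (Real.exp_pos (-η))) (φ := -(π / 2 - φη η)) (by linarith)
    (by linarith) (by rw [x1, x3]; exact v5) hδ.1
  have g17 := ev_log (X := ℂ × ℂ × ℂ) (x := x) (f := fun p => 1 - I * exp (I * -(p.1 + p.2.2)))
    (by fun_prop) s1 (φ := -φη η) (by linarith) (by linarith) (by rw [x1, x3]; exact v6) hδ.1
  have g18 := ev_log (X := ℂ × ℂ × ℂ) (x := x) (f := fun p => 1 - I * exp (I * (p.2.1 + p.2.2)))
    (by fun_prop) (mul_pos s1 (Real.exp_pos (-η))) (φ := -(π / 2 - φη η)) (by linarith)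
    (by linarith) (by rw [x2, x3]; exact v5) hδ.1
  have g19 := ev_log (X := ℂ × ℂ × ℂ) (x := x) (f := fun p => 1 - I * exp (I * -(p.2.1 + p.2.2)))
    (by fun_prop) s1 (φ := -φη η) (by linarith) (by linarith) (by rw [x2, x3]; exact v6) hδ.1
  have f1 := ev_re (X := ℂ × ℂ × ℂ) (x := x) (f := A) hAc (a := aη η)
    (by rw [hA0, Complex.ofReal_re]) hδ.1
  have f2 := ev_re (X := ℂ × ℂ × ℂ) (x := x) (f := fun p => p.1) (by fun_prop) (a := 0)
    (by rw [x1]; simp) hδ.1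
  have f3 := ev_re (X := ℂ × ℂ × ℂ) (x := x) (f := fun p => p.2.1) (by fun_prop) (a := 0)
    (by rw [x2]; simp) hδ.1
  have f4 := ev_re (X := ℂ × ℂ × ℂ) (x := x) (f := fun p => p.2.2) (by fun_prop) (a := 0)
    (by rw [x3]; simp) hδ.1
  have harc : 3 * π / 8 < Real.arccos (rη η) := by
    by_contra hc
    rw [not_lt] at hc
    have h3 := Real.cos_le_cos_of_nonneg_of_le_pi (Real.arccos_nonneg _) (by linarith) hc
    rw [Real.cos_arccos (by linarith) (by linarith)] at h3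
    linarith [cos_num]
  have f5 := ev_re (X := ℂ × ℂ × ℂ) (x := x) (f := fun p => acf (Rf p.1 p.2.1 p.2.2)) hac
    (a := Real.arccos (rη η)) (by rw [ha0, Complex.ofReal_re])
    (δ := Real.arccos (rη η) - 3 * π / 8) (by linarith)
  have harc2 : Real.arccos (rη η) ≤ π / 2 := Real.arccos_le_pi_div_two.2 q0
  have f6 : ∀ᶠ p : ℂ × ℂ × ℂ in 𝓝 x, 1 + cos (2 * p.2.2) + cos (2 * p.1) + cos (2 * p.2.1) ≠ 0 :=
    ContinuousAt.eventually_ne (by fun_prop) hden0
  have f7 : ∀ᶠ p : ℂ × ℂ × ℂ in 𝓝 x, ‖Rf p.1 p.2.1 p.2.2‖ < 1 / 2 :=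
    hRc.norm.eventually_lt continuousAt_const hRn
  filter_upwards [g1, g2, g3, g4, g5, g6, g7, g8, g9, g10, g11, g12, g13, g14, g15, g16, g17, g18,
    g19, f1, f2, f3, f4, f5, f6, f7] with p g1 g2 g3 g4 g5 g6 g7 g8 g9 g10 g11 g12 g13 g14 g15 g16
    g17 g18 g19 f1 f2 f3 f4 f5 f6 f7
  rw [sub_zero] at g1 g2 g3 g4 g5 g6 g7 g8 g9 g10 g11 f2 f3 f4
  have eA : acf (Rf p.1 p.2.1 p.2.2) / 2 = A p := by rw [hA]
  have fi : π / 4 + (2 * φη η - π / 2) / 2 = φη η := by ring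
  have fi2 : π / 4 + -(2 * φη η - π / 2) / 2 = π / 2 - φη η := by ring
  have fi3 : π / 4 - (2 * φη η - π / 2) / 2 = π / 2 - φη η := by ring
  refine ⟨⟨2 * φη η - π / 2, aη η, δ, ?_⟩, f6, f7.le, ?_⟩
  · rw [eA]
    refine ⟨⟨hδ, w1, w2, w3, ⟨f1, f2, f4⟩, ⟨g1, g3, g7, g8, g12, g11⟩, ⟨g14.1, ?_⟩⟩,
      ⟨hδ, w1, by linarith, by linarith, ⟨f1, by rwa [Complex.neg_re, abs_neg],
        by rwa [Complex.neg_re, abs_neg]⟩, ⟨by rwa [Complex.cos_neg], g5, g9, g10, g13, g11⟩,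
        ⟨g15.1, ?_⟩⟩, ?_, g4, g6, ⟨g16.1, ?_⟩, ⟨g17.1, ?_⟩, ⟨g18.1, ?_⟩, ⟨g19.1, ?_⟩⟩
    · rw [fi]; exact g14.2
    · rw [fi2]; exact g15.2
    · have e2 : cos (2 * A p) = Rf p.1 p.2.1 p.2.2 := by
        rw [← eA, mul_div_cancel₀ _ two_ne_zero, acf_cos' f7.le]
      rw [e2]
      unfold Rf
      rw [div_mul_cancel₀ _ f6]
    · rw [fi3]
      have := g16.2
      rwa [sub_neg_eq_add] at this
    · rw [fi]
      have := g17.2
      rwa [sub_neg_eq_add] at this
    · rw [fi3]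
      have := g18.2
      rwa [sub_neg_eq_add] at this
    · rw [fi]
      have := g19.2
      rwa [sub_neg_eq_add] at this
  · rw [abs_le] at f5 ⊢
    constructor <;> linarith [f5.1, f5.2]

/-- a uniform neighbourhood -/
theorem unif : ∃ ε : ℝ, 0 < ε ∧ ∀ η : ℝ, 0 ≤ η → η ≤ 9 / 10 → ∀ b d c : ℂ, ‖b‖ < ε → ‖d‖ < ε →
    ‖c - η * I‖ < ε → (b, d, c) ∈ interior {p | Gd p} := by
  have hK : IsCompact ((fun η : ℝ => ((0 : ℂ), (0 : ℂ), (η : ℂ) * I)) '' Set.Icc 0 (9 / 10)) :=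
    isCompact_Icc.image (by fun_prop)
  have hsub : (fun η : ℝ => ((0 : ℂ), (0 : ℂ), (η : ℂ) * I)) '' Set.Icc 0 (9 / 10) ⊆
      interior {p | Gd p} := by
    rintro _ ⟨η, hη, rfl⟩
    exact mem_interior_iff_mem_nhds.2 (ev_good hη.1 hη.2)
  obtain ⟨ε, hε, h⟩ := hK.exists_thickening_subset_open isOpen_interior hsub
  refine ⟨ε, hε, fun η h0 h1 b d c hb hd hc => h ?_⟩
  rw [Metric.mem_thickening_iff]
  refine ⟨_, ⟨η, ⟨h0, h1⟩, rfl⟩, ?_⟩
  rw [Prod.dist_eq, Prod.dist_eq]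
  simp only [dist_eq_norm, sub_zero]
  exact max_lt hb (max_lt hd hc)

end Pool.Agent.Y482.Cy
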