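import Pool.Agent.Y482.Chi.Max

/-!
# The four quadrilaterals of a block, for large imaginary part of `χ`
-/

set_option autoImplicit false

namespace Pool.Agent.Y482.Cy

open Complex (exp log cos sin I)
open Pool.Agent.Y482.Chi hiding tri_a1 tri_a2 tri_b1 tri_b2
open scoped Real Topology

/-- the domain; near `a = a0`, `b = 0`, with `arg sin (a + c)` near `θ` -/
structure WB (θ a0 δ : ℝ) (a b c : ℂ) : Prop where
  hδ : 0 < δ ∧ δ ≤ 1 / 100
  w1 : 20 * δ ≤ a0
  w2 : a0 + θ ≤ π / 2 - 20 * δ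
  w3 : a0 - θ ≤ π / 2 - 20 * δ
  re : |a.re - a0| ≤ δ ∧ |b.re| ≤ δ ∧ |c.re| ≤ δ
  facts : (cos b ≠ 0 ∧ |(log (cos b)).im| ≤ δ) ∧ (cos (b + c) ≠ 0 ∧ |(log (cos (b + c))).im| ≤ δ) ∧
    (cos (a + b) ≠ 0 ∧ |(log (cos (a + b))).im| ≤ δ) ∧
    (cos (a - b) ≠ 0 ∧ |(log (cos (a - b))).im| ≤ δ) ∧
    (sin (a + c) ≠ 0 ∧ |(log (sin (a + c))).im - θ| ≤ δ) ∧
    (sin a ≠ 0 ∧ |(log (sin a)).im| ≤ δ)
  ups : uph a b c ≠ 0 ∧ |(ups a b c).im - (π / 4 + θ / 2)| ≤ δ

theorem tri_a1 {θ a0 δ : ℝ} {a b c : ℂ} (h : WB θ a0 δ a b c) : Tri (aA1 a b) (aB1 a b) := by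
  obtain ⟨⟨k1, k2⟩, -, ⟨k3, k4⟩, -, -, ⟨k5, k6⟩⟩ := h.facts
  obtain ⟨r1, r2, r3⟩ := h.re
  rw [abs_le] at k2 k4 k6 r1 r2 r3
  have hpi := Real.pi_gt_three
  have w0 := h.hδ.1
  have w1 := h.w1
  have w2 := h.w2
  have w3 := h.w3
  refine ⟨?_, ?_, ?_, ?_⟩
  · have e1 : exp (aA1 a b) = cos b * (cos a + sin a * I) / cos (a + b) := by
      unfold aA1
      rw [Complex.exp_sub, Complex.exp_add, Complex.exp_log k1, Complex.exp_log k3, expI]
    have e2 : exp (-aB1 a b) = -I * (cos b - sin b * I) * sin a / cos (a + b) := by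
      unfold aB1
      rw [show -(I * (π / 2) + log (cos (a + b)) + I * b - log (sin a)) =
        -(I * (π / 2)) + -(I * b) + log (sin a) - log (cos (a + b)) by ring,
        Complex.exp_sub, Complex.exp_add, Complex.exp_add, Complex.exp_log k5, Complex.exp_log k3,
        exp_nhalf, expnI]
    rw [e1, e2, ← add_div, div_eq_one_iff_eq k3, Complex.cos_add]
    linear_combination (sin a * sin b) * Complex.I_sq
  · unfold aA1
    simp only [Complex.sub_im, Complex.add_im, im_I_mul, half_re]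
    linarith
  · unfold aB1
    simp only [Complex.sub_im, Complex.add_im, im_I_mul, half_re]
    linarith
  · unfold aA1 aB1
    simp only [Complex.sub_im, Complex.add_im, im_I_mul, half_re]
    linarith

theorem tri_a2 {θ a0 δ : ℝ} {a b c : ℂ} (h : WB θ a0 δ a b c) : Tri (aA2 a b c) (aB2 a b c) := by
  obtain ⟨-, ⟨k1, k2⟩, -, ⟨k3, k4⟩, ⟨k5, k6⟩, -⟩ := h.facts
  obtain ⟨r1, r2, r3⟩ := h.re
  rw [abs_le] at k2 k4 k6 r1 r2 r3
  have hpi := Real.pi_gt_three
  have w0 := h.hδ.1
  have w1 := h.w1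
  have w2 := h.w2
  have w3 := h.w3
  refine ⟨?_, ?_, ?_, ?_⟩
  · have e1 : exp (aA2 a b c) = I * sin (a + c) * (cos (a - b) - sin (a - b) * I) / cos (b + c) := by
      unfold aA2
      rw [show I * (π / 2) + log (sin (a + c)) - I * a + I * b - log (cos (b + c)) =
        I * (π / 2) + log (sin (a + c)) + -(I * (a - b)) - log (cos (b + c)) by ring,
        Complex.exp_sub, Complex.exp_add, Complex.exp_add, Complex.exp_log k1, Complex.exp_log k5,
        exp_half, expnI]
    have e2 : exp (-aB2 a b c) = (cos (a + c) - sin (a + c) * I) * cos (a - b) / cos (b + c) := by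
      unfold aB2
      rw [show -(log (cos (b + c)) + I * a + I * c - log (cos (a - b))) =
        -(I * (a + c)) + log (cos (a - b)) - log (cos (b + c)) by ring,
        Complex.exp_sub, Complex.exp_add, Complex.exp_log k1, Complex.exp_log k3, expnI]
    rw [e1, e2, ← add_div, div_eq_one_iff_eq k1, show b + c = (a + c) - (a - b) by ring,
      Complex.cos_sub (a + c) (a - b)]
    linear_combination (-sin (a + c) * sin (a - b)) * Complex.I_sq
  · unfold aA2
    simp only [Complex.sub_im, Complex.add_im, im_I_mul, half_re]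
    linarith
  · unfold aB2
    simp only [Complex.sub_im, Complex.add_im, im_I_mul, half_re]
    linarith
  · unfold aA2 aB2
    simp only [Complex.sub_im, Complex.add_im, im_I_mul, half_re]
    linarith

theorem tri_b1 {θ a0 δ : ℝ} {a b c : ℂ} (h : WB θ a0 δ a b c) : Tri (bA1 a b c) (bB1 a b c) := by
  obtain ⟨⟨k1, k2⟩, ⟨k3, k4⟩, ⟨k5, k6⟩, -, ⟨k7, k8⟩, -⟩ := h.facts
  obtain ⟨u1, u2⟩ := h.ups
  obtain ⟨r1, r2, r3⟩ := h.re
  rw [abs_le] at k2 k4 k6 k8 r1 r2 r3 u2
  have hpi := Real.pi_gt_three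
  have w0 := h.hδ.1
  have w1 := h.w1
  have w2 := h.w2
  have w3 := h.w3
  refine ⟨?_, ?_, ?_, ?_⟩
  · have e1 : exp (bA1 a b c) = uph a b c / (cos (a + b) * cos (b + c)) := by
      unfold bA1 Chi.ups
      rw [Complex.exp_sub, Complex.exp_sub, Complex.exp_log k3, Complex.exp_log k5,
        Complex.exp_log u1, div_div]
    have e2 : exp (-bB1 a b c) = -I * (cos b - sin b * I) * cos b * sin (a + c) /
        (cos (a + b) * cos (b + c)) := by
      unfold bB1
      rw [show -(I * (π / 2) + I * b + log (cos (a + b)) + log (cos (b + c)) - log (cos b) -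
        log (sin (a + c))) = -(I * (π / 2)) + -(I * b) + log (cos b) + log (sin (a + c)) -
        log (cos (a + b)) - log (cos (b + c)) by ring,
        Complex.exp_sub, Complex.exp_sub, Complex.exp_add, Complex.exp_add, Complex.exp_add,
        Complex.exp_log k1, Complex.exp_log k3, Complex.exp_log k5, Complex.exp_log k7,
        exp_nhalf, expnI, div_div]
    rw [e1, e2, ← add_div, div_eq_one_iff_eq (mul_ne_zero k5 k3)]
    unfold uph
    rw [expI, Complex.cos_add a b, Complex.cos_add b c, Complex.cos_add a c, Complex.sin_add a c]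
    linear_combination (cos b * sin b * (sin a * cos c + cos a * sin c)) * Complex.I_sq -
      (sin a * sin c) * Complex.sin_sq_add_cos_sq b
  · unfold bA1
    simp only [Complex.sub_im, Complex.add_im, im_I_mul, half_re]
    linarith
  · unfold bB1
    simp only [Complex.sub_im, Complex.add_im, im_I_mul, half_re]
    linarith
  · unfold bA1 bB1
    simp only [Complex.sub_im, Complex.add_im, im_I_mul, half_re]
    linarith

theorem tri_b2 {θ a0 δ : ℝ} {a b c : ℂ} (h : WB θ a0 δ a b c) : Tri (bA2 a b c) (bB2 a b c) := by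
  obtain ⟨⟨k1, k2⟩, ⟨k3, k4⟩, -, ⟨k5, k6⟩, -, ⟨k7, k8⟩⟩ := h.facts
  obtain ⟨u1, u2⟩ := h.ups
  obtain ⟨r1, r2, r3⟩ := h.re
  rw [abs_le] at k2 k4 k6 k8 r1 r2 r3 u2
  have hpi := Real.pi_gt_three
  have w0 := h.hδ.1
  have w1 := h.w1
  have w2 := h.w2
  have w3 := h.w3
  refine ⟨?_, ?_, ?_, ?_⟩
  · have e1 : exp (bA2 a b c) = I * sin a * (cos b + sin b * I) * cos (b + c) / uph a b c := by
      unfold bA2 Chi.ups
      rw [Complex.exp_sub, Complex.exp_add, Complex.exp_add, Complex.exp_add, Complex.exp_log k3,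
        Complex.exp_log k7, Complex.exp_log u1, exp_half, expI]
    have e2 : exp (-bB2 a b c) = (cos c + sin c * I) * cos (a - b) * cos b / uph a b c := by
      unfold bB2 Chi.ups
      rw [show -(log (uph a b c) - I * c - log (cos (a - b)) - log (cos b)) =
        I * c + log (cos (a - b)) + log (cos b) - log (uph a b c) by ring,
        Complex.exp_sub, Complex.exp_add, Complex.exp_add, Complex.exp_log k1, Complex.exp_log k5,
        Complex.exp_log u1, expI]
    rw [e1, e2, ← add_div, div_eq_one_iff_eq u1]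
    unfold uph
    rw [expI, Complex.cos_sub a b, Complex.cos_add b c, Complex.cos_add a c, Complex.sin_add a c]
    linear_combination (sin a * sin b * (cos b * cos c - sin b * sin c)) * Complex.I_sq +
      (sin a * sin c) * Complex.sin_sq_add_cos_sq b
  · unfold bA2
    simp only [Complex.sub_im, Complex.add_im, im_I_mul, half_re]
    linarith
  · unfold bB2
    simp only [Complex.sub_im, Complex.add_im, im_I_mul, half_re]
    linarith
  · unfold bA2 bB2
    simp only [Complex.sub_im, Complex.add_im, im_I_mul, half_re]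
    linarith

end Pool.Agent.Y482.Cy
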