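import Pool.Agent.W583.HTPoth

/-!
# The potential at a hinge, for large imaginary part of the second variable
-/

set_option autoImplicit false

namespace Pool.Agent.Y482.Cy

open Filter Topology Metric Set MeasureTheory
open Pool.Agent.W711.HT
open Pool.Agent.W709.VC (Dv)
open Pool.Agent.W505.VC
open Pool.Agent.W583.HTP
open scoped Real Interval

theorem mem_path' {δ w : ℂ} (hδ : ‖δ - 1 / 4‖ ≤ 1 / 16) (hw : |w.re| ≤ 1 / 20)
    (hw' : |w.im| ≤ 37 / 20) {t : ℝ} (ht : t ∈ Icc (0:ℝ) 1) :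
    (2 * π * δ) * t + w ∈ ball (0 : ℂ) π := by
  have hpi := Real.pi_gt_d2
  have hpi2 := Real.pi_lt_d2
  obtain ⟨d1, d2, -⟩ := delta_re hδ
  have d3 : |δ.im| ≤ 1 / 16 := by
    have h1 := (Complex.abs_im_le_norm (δ - 1 / 4)).trans hδ
    have e : (δ - 1 / 4).im = δ.im := by
      rw [Complex.sub_im]; norm_num
    rwa [e] at h1
  rw [mem_ball_zero_iff]
  have e1 : ((2 * π * δ) * t + w).re = 2 * π * δ.re * t + w.re := by
    have : (2 * π * δ) * t + w = ((2 * π * t : ℝ) : ℂ) * δ + w := by push_cast; ring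
    rw [this, Complex.add_re, Complex.re_ofReal_mul]; ring
  have e2 : ((2 * π * δ) * t + w).im = 2 * π * δ.im * t + w.im := by
    have : (2 * π * δ) * t + w = ((2 * π * t : ℝ) : ℂ) * δ + w := by push_cast; ring
    rw [this, Complex.add_im, Complex.im_ofReal_mul]; ring
  refine lt_of_pow_lt_pow_left₀ 2 Real.pi_pos.le ?_
  rw [← Complex.normSq_eq_norm_sq, Complex.normSq_apply, e1, e2]
  have t0 := ht.1
  have t1 := ht.2
  rw [abs_le] at hw hw' d3
  have p0 : 0 < 2 * π := by positivity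
  have b1 : 2 * π * δ.re * t + w.re ≤ 101 / 50 := by
    have : 2 * π * δ.re * t ≤ 2 * π * (5 / 16) * 1 := by
      have h1 : 2 * π * δ.re ≤ 2 * π * (5 / 16) := mul_le_mul_of_nonneg_left d2 p0.le
      have h2 : 0 ≤ 2 * π * (5 / 16) := by positivity
      exact mul_le_mul h1 t1 t0 h2
    linarith
  have b2 : -(101 / 50) ≤ 2 * π * δ.re * t + w.re := by
    have : 0 ≤ 2 * π * δ.re * t := by positivity
    linarith
  have b3 : |2 * π * δ.im * t| ≤ 2 * π * (1 / 16) := by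
    rw [abs_mul, abs_mul, abs_of_pos p0, abs_of_nonneg t0]
    have h1 : 2 * π * |δ.im| ≤ 2 * π * (1 / 16) :=
      mul_le_mul_of_nonneg_left (abs_le.2 ⟨by linarith, by linarith⟩) p0.le
    have h2 : 0 ≤ 2 * π * |δ.im| := by positivity
    nlinarith
  rw [abs_le] at b3
  have b4 : 2 * π * δ.im * t + w.im ≤ 9 / 4 := by linarith
  have b5 : -(9 / 4) ≤ 2 * π * δ.im * t + w.im := by linarith
  have c1 : (2 * π * δ.re * t + w.re) * (2 * π * δ.re * t + w.re) ≤ (101 / 50) ^ 2 := by nlinarith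
  have c2 : (2 * π * δ.im * t + w.im) * (2 * π * δ.im * t + w.im) ≤ (9 / 4) ^ 2 := by nlinarith
  nlinarith

theorem rr_eq' {Λ : ℂ → ℂ} (hΛ0 : Λ 0 = 0)
    (hΛ : ∀ z ∈ ball (0 : ℂ) π, HasDerivAt Λ (ell z) z) {δ ψ : ℂ} (hδ : ‖δ - 1 / 4‖ ≤ 1 / 16)
    (hψ : |ψ.re| ≤ 1 / 20) (hψi : |ψ.im| ≤ 37 / 20) :
    2 * π * rrF δ ψ = Λ (2 * π * δ + ψ) + Λ (2 * π * δ - ψ) := by
  have hψ' : |(-ψ).re| ≤ 1 / 20 := by rwa [Complex.neg_re, abs_neg]
  have hψi' : |(-ψ).im| ≤ 37 / 20 := by rwa [Complex.neg_im, abs_neg]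
  have h1' : ∀ t ∈ Icc (0:ℝ) 1, (2 * π * δ) * t + ψ ∈ ball (0 : ℂ) π :=
    fun t ht => mem_path' hδ hψ hψi ht
  have h2' : ∀ t ∈ Icc (0:ℝ) 1, (2 * π * δ) * t + -ψ ∈ ball (0 : ℂ) π :=
    fun t ht => mem_path' hδ hψ' hψi' ht
  obtain ⟨u, hu⟩ : ∃ u : ℂ, u = 2 * π * δ := ⟨_, rfl⟩
  rw [← hu] at h1' h2'
  have h1 := h1'
  have h2 := h2'
  have hd : ∀ t ∈ uIcc (0:ℝ) 1, HasDerivAt (fun s : ℝ => Λ (u * s + ψ) + Λ (u * s + -ψ))
      (u * ell (u * t + ψ) + u * ell (u * t + -ψ)) t := by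
    intro t ht
    rw [uIcc_of_le zero_le_one] at ht
    exact (hasDerivAt_path hΛ u ψ (h1 t ht)).add (hasDerivAt_path hΛ u (-ψ) (h2 t ht))
  have hi : IntervalIntegrable (fun t : ℝ => u * ell (u * t + ψ) + u * ell (u * t + -ψ))
      volume 0 1 := by
    apply ContinuousOn.intervalIntegrable
    rw [uIcc_of_le zero_le_one]
    exact (cont_path u ψ h1).add (cont_path u (-ψ) h2)
  have h := intervalIntegral.integral_eq_sub_of_hasDerivAt hd hi
  have hodd : Λ ψ + Λ (-ψ) = 0 := by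
    apply odd_prim hΛ0 hΛ
    have := h1 0 ⟨le_rfl, zero_le_one⟩
    simpa using this
  simp only [Complex.ofReal_one, mul_one, Complex.ofReal_zero, mul_zero, zero_add, hodd,
    sub_zero] at h
  rw [← hu, sub_eq_add_neg, ← h]
  unfold rrF
  rw [← mul_assoc, ← hu, ← intervalIntegral.integral_const_mul]
  apply intervalIntegral.integral_congr
  intro t ht
  rw [uIcc_of_le zero_le_one] at ht
  simp only
  have h3 := ell_add (θ := u * t) (ψ := ψ) (ball_re (h1 t ht))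
    (by rw [sub_eq_add_neg]; exact ball_re (h2 t ht))
  rw [sub_eq_add_neg] at h3
  rw [← h3, mul_add]

theorem poth' {δ ψ : ℂ} (hδ : ‖δ - 1 / 4‖ ≤ 1 / 16) (hψ : |ψ.re| ≤ 1 / 20)
    (hψi : |ψ.im| ≤ 37 / 20) :
    2 * π * (rrF δ ψ).re - ψ.im * (Lg (2 * π * δ) ψ).im + (2 * π * δ).im *
    (Complex.log (2 * Complex.cos ψ + 2 * Complex.cos (2 * π * δ))).im =
    Dv (-Complex.exp (Complex.I * (ψ - 2 * π * δ))) +
      Dv (-Complex.exp (-(Complex.I * (2 * π * δ + ψ)))) := by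
  obtain ⟨Λ, hΛ0, hΛ⟩ := exists_prim
  obtain ⟨d1, d2, d3⟩ := delta_re hδ
  have hpi := Real.pi_gt_three
  have hpi' := Real.pi_pos
  have m1 : 2 * π * δ + ψ ∈ ball (0 : ℂ) π := by
    have := mem_path' hδ hψ hψi (t := 1) ⟨zero_le_one, le_rfl⟩
    simpa using this
  have m2 : 2 * π * δ - ψ ∈ ball (0 : ℂ) π := by
    have := mem_path' hδ (w := -ψ) (by rwa [Complex.neg_re, abs_neg])
      (by rwa [Complex.neg_im, abs_neg]) (t := 1) ⟨zero_le_one, le_rfl⟩
    rw [Complex.ofReal_one, mul_one, ← sub_eq_add_neg] at this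
    exact this
  obtain ⟨u, hu⟩ : ∃ u : ℂ, u = 2 * π * δ := ⟨_, rfl⟩
  rw [← hu] at m1 m2
  have hure : 3 * π / 8 ≤ u.re := by
    have : u = ((2 * π : ℝ) : ℂ) * δ := by rw [hu]; push_cast; ring
    rw [this, Complex.re_ofReal_mul]
    nlinarith
  have hψre := hψ
  rw [abs_le] at hψre
  have r1 : 0 < (u + ψ).re := by
    rw [Complex.add_re]; linarith [hψre.1]
  have r2 : 0 < (u - ψ).re := by
    rw [Complex.sub_re]; linarith [hψre.2]
  have c1 : 0 < (Complex.cos ((u + ψ) / 2)).re := by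
    have := two_cos_pos (ball_re m1)
    rw [two_mul_re] at this
    linarith
  have c2 : 0 < (Complex.cos ((u - ψ) / 2)).re := by
    have := two_cos_pos (ball_re m2)
    rw [two_mul_re] at this
    linarith
  have hE1 := dvE hΛ0 hΛ m1 r1
  have hE2 := dvE hΛ0 hΛ m2 r2
  have hrr := rr_eq' hΛ0 hΛ hδ hψ hψi
  rw [← hu] at hrr ⊢
  have hrr' : 2 * π * (rrF δ ψ).re = (Λ (u + ψ)).re + (Λ (u - ψ)).re := by
    have h := congrArg Complex.re hrr
    have e : 2 * π * rrF δ ψ = ((2 * π : ℝ) : ℂ) * rrF δ ψ := by push_cast; ring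
    rw [e, Complex.re_ofReal_mul, Complex.add_re] at h
    exact h
  have hLg : (Lg u ψ).im = (Complex.cos ((u - ψ) / 2)).arg - (Complex.cos ((u + ψ) / 2)).arg := by
    unfold Lg
    exact log_div_of_pos c2 c1
  have hlog : (Complex.log (2 * Complex.cos ψ + 2 * Complex.cos u)).im =
      (Complex.cos ((u + ψ) / 2)).arg + (Complex.cos ((u - ψ) / 2)).arg := by
    rw [← ell_add (ball_re m1) (ball_re m2)]
    unfold ell
    rw [Complex.add_im, Complex.log_im, Complex.log_im, arg_two_mul, arg_two_mul]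
  have e1 : Complex.I * (ψ - u) = -(Complex.I * (u - ψ)) := by ring
  rw [e1, hE1, hE2, hrr', hLg, hlog, Complex.add_im, Complex.sub_im]
  ring

end Pool.Agent.Y482.Cy
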