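import Pool.Agent.Y482.Cy.Ring
import Pool.Agent.Y482.Cy.Pot
import Pool.Agent.Y482.Chi.Fin
import Pool.Agent.Y472.E.Defs

/-!
# Closed 3-braids, `χ` near `i y`: the critical value is the maximal volume
-/

set_option autoImplicit false

namespace Pool.Agent.Y482.Cy

open Finset Filter Topology
open Pool.Agent.W711.HT
open Pool.Agent.W719.AR (Fl S_VLF)
open Pool.Agent.W709.VC (Dv)
open Pool.Agent.Y482 (sum_succ_mod)
open Pool.Agent.Y472 (SDY RCritY RVal3 Rd)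
open Pool.Agent.Y482.Chi (ChiAng chiVol hvX Lc lg_lc acf Rf)
open scoped Real

/-- the value of the potential at an edge -/
theorem pot3' (hP : S_POTH) {δ ψ ψ' χ : ℂ} (h1 : ‖δ - 1 / 4‖ ≤ 1 / 16) (hψ : ‖ψ‖ ≤ 1 / 10)
    (hψ' : ‖ψ'‖ ≤ 1 / 10) (hχ : |χ.re| ≤ 1 / 20) (hχi : |χ.im| ≤ 37 / 20)
    (hc : Complex.log (2 * Complex.cos ψ + 2 * Complex.cos (2 * π * δ)) +
      Complex.log (2 * Complex.cos ψ' + 2 * Complex.cos (2 * π * δ)) =
      Complex.log (2 * Complex.cos χ - 2 * Complex.cos (2 * π * δ)) +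
      2 * Complex.log (2 * Complex.sin (π * δ))) :
    2 * π * (rrF δ ψ + rrF δ ψ' + rrF (1 / 2 - δ) χ - 2 * ssF δ).re =
      hvX ψ ψ' χ (2 * π * δ) + ψ.im * (Lg (2 * π * δ) ψ).im +
        ψ'.im * (Lg (2 * π * δ) ψ').im + χ.im * (Lc (2 * π * δ) χ).im := by
  obtain ⟨a1, a2⟩ := hP δ ψ h1 (hψ.trans (by norm_num))
  obtain ⟨b1, -⟩ := hP δ ψ' h1 (hψ'.trans (by norm_num))
  have c1 := poth' (δ := 1 / 2 - δ) (ψ := χ) (by
    rw [show 1 / 2 - δ - 1 / 4 = -(δ - 1 / 4) by ring, norm_neg]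
    exact h1) hχ hχi
  have hu : 2 * (π : ℂ) * (1 / 2 - δ) = π - 2 * π * δ := by ring
  rw [hu, lg_lc, Complex.cos_pi_sub] at c1
  have e1 : -Complex.exp (Complex.I * (χ - (π - 2 * π * δ))) =
      Complex.exp (Complex.I * (2 * π * δ + χ)) := by
    rw [show Complex.I * (χ - (π - 2 * π * δ)) = Complex.I * (2 * π * δ + χ) - π * Complex.I by
      ring, Complex.exp_sub, Complex.exp_pi_mul_I]
    ring
  have e2 : -Complex.exp (-(Complex.I * (π - 2 * π * δ + χ))) =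
      Complex.exp (Complex.I * (2 * π * δ - χ)) := by
    rw [show -(Complex.I * (π - 2 * π * δ + χ)) = Complex.I * (2 * π * δ - χ) - π * Complex.I by
      ring, Complex.exp_sub, Complex.exp_pi_mul_I]
    ring
  rw [e1, e2] at c1
  have e3 : ((π : ℂ) - 2 * π * δ).im = -(2 * π * δ).im := by
    rw [Complex.sub_im, Complex.ofReal_im, zero_sub]
  have e4 : 2 * Complex.cos χ + 2 * -Complex.cos (2 * π * δ) =
      2 * Complex.cos χ - 2 * Complex.cos (2 * π * δ) := by ring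
  rw [e3, e4] at c1
  have h3 := congrArg Complex.im hc
  have t1 : ∀ w : ℂ, (2 * w).im = 2 * w.im := fun w => by simp
  have t2 : ∀ w : ℂ, (2 * w).re = 2 * w.re := fun w => by simp
  rw [Complex.add_im, Complex.add_im, t1 (Complex.log (2 * Complex.sin (π * δ)))] at h3
  unfold hvX
  rw [Complex.sub_re, Complex.add_re, Complex.add_re, t2]
  linear_combination a1 + b1 + c1 + 2 * a2 - (2 * π * δ).im * h3

section
variable {y₀ ρ₀ c C : ℝ} {s dl : ℂ → ℂ → ℂ → ℂ}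

lemma der2y (hS : SDY y₀ ρ₀ c C s dl) {ψ ψ' χ : ℂ} (h : ψ ∈ Rc ρ₀ ρ₀) (h' : ψ' ∈ Rc ρ₀ ρ₀)
    (hχ : χ ∈ Rd y₀ ρ₀) :
    deriv (fun w => s ψ w χ) ψ' = -(1 / (2 * π)) * Lg (2 * π * dl ψ ψ' χ) ψ' := by
  have hop : IsOpen (Rc ρ₀ ρ₀) := by
    have e : Rc ρ₀ ρ₀ = (fun z : ℂ => |z.re|) ⁻¹' Set.Iio ρ₀ ∩ (fun z : ℂ => |z.im|) ⁻¹' Set.Iio ρ₀ :=
      rfl
    rw [e]
    exact (isOpen_Iio.preimage (by fun_prop)).inter (isOpen_Iio.preimage (by fun_prop))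
  have h1 := hS.sder ψ' h' ψ h χ hχ
  have h2 : (fun w => s ψ w χ) =ᶠ[𝓝 ψ'] fun w => s w ψ χ := by
    filter_upwards [hop.mem_nhds h'] with w hw using hS.sym _ h _ hw _ hχ
  rw [(h1.congr_of_eventuallyEq h2).deriv, hS.dsym _ h' _ h _ hχ]

/-- the critical points of the potential -/
theorem crit_of (hV : S_VLF) {ε : ℝ} (hε : ∀ η : ℝ, 0 ≤ η → η ≤ 9 / 10 → ∀ b d c : ℂ, ‖b‖ < ε →
    ‖d‖ < ε → ‖c - η * Complex.I‖ < ε → (b, d, c) ∈ interior {p | Gd p}) (hε0 : 0 < ε)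
    (hy0 : 0 < y₀) (hy1 : y₀ ≤ 9 / 5)
    (hS : SDY y₀ ρ₀ c C s dl) {n : ℕ} {a : ℕ → ℤ} {z : ℕ → ℂ} {χ : ℂ}
    (hn : 1 ≤ n) (h : RCritY s y₀ ρ₀ n a z χ) (hz : ∀ j < n, ‖z j‖ ≤ ε)
    (hχ : ‖χ - y₀ * Complex.I‖ ≤ ε) :
    CritW n a 0 z χ (fun j => 2 * π * dl (z j) (z ((j + 1) % n)) χ) := by
  obtain ⟨mc, hv, ha⟩ := h
  have hpi : (π : ℂ) ≠ 0 := Complex.ofReal_ne_zero.2 Real.pi_ne_zero
  have z0 : ∀ w : ℂ, 0 < w.im → w ≠ 0 := by
    intro w hw h0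
    rw [h0] at hw
    simp at hw
  have n2 : ‖(2 : ℂ)‖ = 2 := by norm_num
  have hpath : ∀ j < n, ∀ t : ℝ, 0 ≤ t → t ≤ 1 →
      (z j / 2, z ((j + 1) % n) / 2, (t : ℂ) * (χ / 2)) ∈ interior {p | Gd p} := by
    intro j hj t t0 t1
    have h1 : (j + 1) % n < n := Nat.mod_lt _ (by omega)
    have b1 := hz j hj
    have b2 := hz _ h1
    refine hε (t * y₀ / 2) (by positivity) (by nlinarith) _ _ _ ?_ ?_ ?_
    · rw [norm_div, n2]; linarith
    · rw [norm_div, n2]; linarith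
    · have e : (t : ℂ) * (χ / 2) - ((t * y₀ / 2 : ℝ) : ℂ) * Complex.I =
          ((t / 2 : ℝ) : ℂ) * (χ - y₀ * Complex.I) := by push_cast; ring
      rw [e, norm_mul, Complex.norm_real, Real.norm_eq_abs, abs_of_nonneg (by positivity)]
      have := norm_nonneg (χ - y₀ * Complex.I)
      nlinarith
  have hacf : ∀ j < n, 2 * π * dl (z j) (z ((j + 1) % n)) χ =
      acf (Rf (z j / 2) (z ((j + 1) % n) / 2) (χ / 2)) := by
    intro j hj
    have h1 : (j + 1) % n < n := Nat.mod_lt _ (by omega)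
    obtain ⟨m1, -⟩ := hv j hj
    obtain ⟨m2, -⟩ := hv _ h1
    have g := interior_subset (hpath j hj 1 zero_le_one le_rfl)
    rw [Complex.ofReal_one, one_mul] at g
    obtain ⟨-, -, g1, g2⟩ := g
    simp only at g1 g2
    refine cos_unique' ?_ g2 ?_
    · have h3 := (hS.dclose _ m1 _ m2 _ mc).1
      have h4 : ‖(2 : ℂ) * π * dl (z j) (z ((j + 1) % n)) χ - π / 2‖ ≤ π / 8 := by
        rw [show (2 : ℂ) * π * dl (z j) (z ((j + 1) % n)) χ - π / 2 =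
          2 * π * (dl (z j) (z ((j + 1) % n)) χ - 1 / 4) by ring, norm_mul, norm_mul,
          Complex.norm_ofNat, Complex.norm_real, Real.norm_eq_abs, abs_of_pos Real.pi_pos]
        nlinarith [Real.pi_pos]
      have h5 := (Complex.abs_re_le_norm _).trans h4
      rwa [Complex.sub_re, Chi.half_re] at h5
    · rw [acf_cos' g1, hS.dcos _ m1 _ m2 _ mc]
      unfold Rf
      rw [show 2 * (χ / 2) = χ by ring, show 2 * (z j / 2) = z j by ring,
        show 2 * (z ((j + 1) % n) / 2) = z ((j + 1) % n) by ring]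
  refine ⟨?_, ?_, ?_, ?_⟩
  · intro j hj
    have g := interior_subset (hpath j hj 1 zero_le_one le_rfl)
    rw [Complex.ofReal_one, one_mul] at g
    have g1 := g.1
    simp only at g1
    rw [hacf j hj]
    exact g1
  · intro j hj
    have h1 : (j + 1) % n < n := Nat.mod_lt _ (by omega)
    obtain ⟨m1, i1, n1, -⟩ := hv j hj
    obtain ⟨m2, i2, n2, -⟩ := hv _ h1
    exact blk_vol hV (z0 _ i1) (z0 _ i2) n1 n2 (hacf j hj) (hpath j hj)
  · intro j hj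
    have h1 : (j + 1) % n < n := Nat.mod_lt _ (by omega)
    have h2 : ((j + 1) % n + 1) % n < n := Nat.mod_lt _ (by omega)
    obtain ⟨m1, -, -, e1⟩ := hv j hj
    obtain ⟨m2, -⟩ := hv _ h1
    obtain ⟨m3, -⟩ := hv _ h2
    rw [der2y hS m1 m2 mc, (hS.sder _ m2 _ m3 _ mc).deriv] at e1
    have h3 : (2 : ℂ) * π * (Complex.I * a ((j + 1) % n) * z ((j + 1) % n) / (2 * π) + Complex.I +
      -(1 / (2 * π)) * Lg (2 * π * dl (z j) (z ((j + 1) % n)) χ) (z ((j + 1) % n)) +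
      -(1 / (2 * π)) * Lg (2 * π * dl (z ((j + 1) % n)) (z (((j + 1) % n + 1) % n)) χ)
        (z ((j + 1) % n))) = 0 := by rw [e1, mul_zero]
    field_simp at h3
    linear_combination h3
  · have e2 : ∀ j ∈ range n, deriv (fun w => s (z j) (z ((j + 1) % n)) w) χ =
        -(1 / (2 * π)) * Lc (2 * π * dl (z j) (z ((j + 1) % n)) χ) χ := by
      intro j hj
      rw [mem_range] at hj
      have h1 : (j + 1) % n < n := Nat.mod_lt _ (by omega)
      obtain ⟨m1, -⟩ := hv j hj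
      obtain ⟨m2, -⟩ := hv _ h1
      rw [(hS.sderc _ m1 _ m2 _ mc).deriv, lg_lc]
    rw [sum_congr rfl e2, ← mul_sum] at ha
    have h3 : (2 : ℂ) * π * (Complex.I + -(1 / (2 * π)) *
      ∑ j ∈ range n, Lc (2 * π * dl (z j) (z ((j + 1) % n)) χ) χ) = 0 := by rw [ha, mul_zero]
    field_simp at h3
    push_cast
    linear_combination h3

/-- the critical value -/
theorem val_of (hP : S_POTH) (hS : SDY y₀ ρ₀ c C s dl) {n : ℕ} {a : ℕ → ℤ} {z : ℕ → ℂ}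
    {χ : ℂ} (hn : 1 ≤ n) (h : RCritY s y₀ ρ₀ n a z χ) (hχ : |χ.re| ≤ 1 / 20)
    (hχi : |χ.im| ≤ 37 / 20)
    (hX : CritW n a 0 z χ (fun j => 2 * π * dl (z j) (z ((j + 1) % n)) χ)) :
    2 * π * (RVal3 s n a 0 z χ).re = ∑ j ∈ range n, hvX (z j) (z ((j + 1) % n)) χ
      (2 * π * dl (z j) (z ((j + 1) % n)) χ) := by
  obtain ⟨mc, hv, ha⟩ := h
  unfold RVal3
  rw [Complex.add_re, Complex.re_sum, mul_add, mul_sum]
  have e0 : ∀ j ∈ range n, 2 * π * (Complex.I * a j * z j ^ 2 / (4 * π) + Complex.I * z j +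
      s (z j) (z ((j + 1) % n)) χ).re =
      hvX (z j) (z ((j + 1) % n)) χ (2 * π * dl (z j) (z ((j + 1) % n)) χ) +
      ((z j).im * ((Lg (2 * π * dl (z j) (z ((j + 1) % n)) χ) (z j)).im -
        ((a j : ℝ) * (z j).re + 2 * π))) +
      (z ((j + 1) % n)).im *
        (Lg (2 * π * dl (z j) (z ((j + 1) % n)) χ) (z ((j + 1) % n))).im +
      χ.im * (Lc (2 * π * dl (z j) (z ((j + 1) % n)) χ) χ).im := by
    intro j hj
    rw [mem_range] at hj
    have h1 : (j + 1) % n < n := Nat.mod_lt _ (by omega)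
    obtain ⟨m1, i1, n1, -⟩ := hv j hj
    obtain ⟨m2, i2, n2, -⟩ := hv _ h1
    have t1 := pot3' hP (hS.dclose _ m1 _ m2 _ mc).1 n1 n2 hχ hχi (hS.dcrit _ m1 _ m2 _ mc)
    have t2 := Pool.Agent.W571.AR.val_re (a j) (z j)
    rw [Complex.add_re, mul_add, hS.scrit _ m1 _ m2 _ mc, t1, t2]
    ring
  rw [sum_congr rfl e0, sum_add_distrib, sum_add_distrib, sum_add_distrib,
    ← sum_succ_mod n hn (fun j => (z j).im * ((Lg (2 * π * dl (z j) (z ((j + 1) % n)) χ) (z j)).im -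
        ((a j : ℝ) * (z j).re + 2 * π))), ← mul_sum]
  have e1 : ∑ j ∈ range n, ((z ((j + 1) % n)).im *
      ((Lg (2 * π * dl (z ((j + 1) % n)) (z (((j + 1) % n + 1) % n)) χ) (z ((j + 1) % n))).im -
        ((a ((j + 1) % n) : ℝ) * (z ((j + 1) % n)).re + 2 * π))) +
      ∑ j ∈ range n, (z ((j + 1) % n)).im *
        (Lg (2 * π * dl (z j) (z ((j + 1) % n)) χ) (z ((j + 1) % n))).im = 0 := by
    rw [← sum_add_distrib]
    refine sum_eq_zero fun j hj => ?_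
    rw [mem_range] at hj
    have e2 := Pool.Agent.W571.AR.im_eq _ _ _ (hX.vert j hj)
    rw [Complex.add_im] at e2
    linear_combination (-(z ((j + 1) % n)).im) * e2
  have e3 : 2 * π * (Complex.I * ((0 : ℤ) : ℂ) * χ ^ 2 / (2 * π) + Complex.I * χ).re =
      -(χ.im * (2 * ((0 : ℤ) : ℝ) * χ.re + 2 * π)) := by
    have := Pool.Agent.W571.AR.val_re 0 χ
    rw [show Complex.I * ((0 : ℤ) : ℂ) * χ ^ 2 / (2 * π) =
      Complex.I * ((0 : ℤ) : ℂ) * χ ^ 2 / (4 * π) by push_cast; ring, this]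
    push_cast
    ring
  have e4 := hX.axis
  have e5 : (Complex.I * (2 * ((0 : ℤ) : ℂ) * χ + 2 * π)).im =
      2 * ((0 : ℤ) : ℝ) * χ.re + 2 * π := by
    simp
  have e6 : ∑ j ∈ range n, (Lc (2 * π * dl (z j) (z ((j + 1) % n)) χ) χ).im =
      2 * ((0 : ℤ) : ℝ) * χ.re + 2 * π := by
    rw [← e5, e4, Complex.im_sum]
  rw [e3, e6]
  linear_combination e1

end

/-- the critical value is the maximal volume of the angle structures -/
theorem geoy : ∀ y₀ : ℝ, 0 < y₀ → y₀ ≤ 9 / 5 → ∃ ε : ℝ, 0 < ε ∧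
    ∀ (ρ₀ c C : ℝ) (s dl : ℂ → ℂ → ℂ → ℂ), SDY y₀ ρ₀ c C s dl → ∀ (n : ℕ) (a : ℕ → ℤ) (z : ℕ → ℂ)
      (χ : ℂ), 1 ≤ n → RCritY s y₀ ρ₀ n a z χ → (∀ j < n, ‖z j‖ ≤ ε) →
      ‖χ - y₀ * Complex.I‖ ≤ ε →
    IsGreatest {W : ℝ | ∃ f g F G : ℕ → Fl, ChiAng n a 0 f g F G ∧ chiVol n f g F G = W}
      (2 * π * (RVal3 s n a 0 z χ).re) := by
  intro y₀ hy0 hy1
  obtain ⟨ε, hε0, hε⟩ := unif
  refine ⟨min ε (1 / 20), lt_min hε0 (by norm_num), ?_⟩
  intro ρ₀ c C s dl hS n a z χ hn h hz hχ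
  have hX := crit_of Pool.Agent.Y482.g_VLF hε hε0 hy0 hy1 hS hn h
    (fun j hj => (hz j hj).trans (min_le_left _ _)) (hχ.trans (min_le_left _ _))
  have h1 := hχ.trans (min_le_right _ _)
  have h2 := (Complex.abs_re_le_norm _).trans h1
  have h3 := (Complex.abs_im_le_norm _).trans h1
  have e1 : (χ - y₀ * Complex.I).re = χ.re := by simp
  have e2 : (χ - y₀ * Complex.I).im = χ.im - y₀ := by simp
  rw [e1] at h2
  rw [e2, abs_le] at h3
  rw [val_of Pool.Agent.W583.HTP.poth hS hn h h2 (by rw [abs_le]; constructor <;> linarith) hX]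
  exact geow Pool.Agent.W120.VC.tet hn hX

end Pool.Agent.Y482.Cy
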