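import Pool.Agent.Y482.Cy.Rel

/-!
# The angles of a block; the derivative of the volume
-/

set_option autoImplicit false

namespace Pool.Agent.Y482.Cy

open Finset
open Complex (exp log cos sin I)
open Pool.Agent.W711.HT
open Pool.Agent.W719.AR (Fl)
open Pool.Agent.W709.VC (S_TET)
open Pool.Agent.W737.AR (Lf vol_le)
open Pool.Agent.Y482.Chi hiding tri_a1 tri_a2 tri_b1 tri_b2 blkAng blkCr blk_lf
open scoped Real Topology

lemma WB.posA {θ a0 δ : ℝ} {a b c : ℂ} (h : WB θ a0 δ a b c) : (flA a b c).Pos := flE_pos (tri_a1 h) (tri_a2 h)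

lemma WB.posB {θ a0 δ : ℝ} {a b c : ℂ} (h : WB θ a0 δ a b c) : (flB a b c).Pos := flE_pos (tri_b1 h) (tri_b2 h)

/-- the relations between the arguments -/
lemma BY.im {θ a0 δ : ℝ} {a b d c : ℂ} (h : BY θ a0 δ a b d c) :
    (log (cos (a + b))).im + (log (cos (a - b))).im + (log (cos (a + d))).im +
      (log (cos (a - d))).im =
      2 * (log (sin a)).im + (log (sin (a + c))).im + (log (sin (a - c))).im ∧
    (ups a (-d) (-c)).im = (ups a b c).im + (log (sin a)).im + (log (sin (a - c))).im - c.re -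
      (log (cos (a + b))).im - (log (cos (a - b))).im := by
  have h1 := congrArg Complex.im h.r1
  have h2 := congrArg Complex.im h.r2
  simp only [Complex.add_im, Complex.sub_im, im_two, im_I_mul] at h1 h2
  exact ⟨h1, h2⟩

theorem blkAng {θ a0 δ : ℝ} {a b d c : ℂ} (h : BY θ a0 δ a b d c) :
    BlkAng (flA a b c) (flA a (-d) (-c)) (flB a b c) (flB a (-d) (-c)) (2 * b.re) (2 * d.re)
      (2 * c.re) := by
  obtain ⟨h1, h2⟩ := h.im
  constructor <;>
  · simp only [flA, flB, flE, th, aA1, aB1, aA2, aB2, bA1, bB1, bA2, bB2, Complex.cos_neg,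
      ← sub_eq_add_neg, sub_neg_eq_add, ← neg_add', Complex.add_im, Complex.sub_im, im_I_mul,
      half_re, Complex.neg_re]
    have e1 : cos (-d - c) = cos (d + c) := by rw [← Complex.cos_neg]; congr 1; ring
    try rw [e1]
    linarith

/-- the crossing angles -/
lemma blkCr {θ a0 δ : ℝ} {a b d c : ℂ} (h : BY θ a0 δ a b d c) :
    ((flA a b c).a + (flA a b c).a' + (flA a b c).c') +
      ((flB a b c).a + (flB a b c).a' + (flB a b c).c') - 2 * π =
      2 * (lgr a b).im + 2 * (log (cos b)).im - 2 * (log (cos (b + c))).im ∧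
    ((flA a (-d) (-c)).a + (flA a (-d) (-c)).a' + (flA a (-d) (-c)).c') +
      ((flB a (-d) (-c)).a + (flB a (-d) (-c)).a' + (flB a (-d) (-c)).c') - 2 * π =
      -2 * (lgr a d).im + 2 * (log (cos d)).im - 2 * (log (cos (d + c))).im ∧
    ((flA a b c).c' + (flA a b c).b' + (flA a (-d) (-c)).a') + ((flB a b c).a' +
      (flB a (-d) (-c)).a + (flB a (-d) (-c)).c + (flB a (-d) (-c)).b') - 2 * π =
      -2 * (lcr a c).im + 2 * (log (cos (b + c))).im - 2 * (log (cos (d + c))).im := by
  obtain ⟨h1, h2⟩ := h.im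
  have e1 : cos (-d - c) = cos (d + c) := by rw [← Complex.cos_neg]; congr 1; ring
  refine ⟨?_, ?_, ?_⟩ <;>
  · simp only [flA, flB, flE, th, aA1, aB1, aA2, aB2, bA1, bB1, bA2, bB2, Complex.cos_neg,
      ← sub_eq_add_neg, sub_neg_eq_add, ← neg_add', Complex.add_im, Complex.sub_im, im_I_mul,
      half_re, Complex.neg_re, lgr, lcr, e1]
    linarith

theorem blk_lf {θ a0 δ : ℝ} {a b d c : ℂ} (h : BY θ a0 δ a b d c) {f g F G : Fl} (pf : f.Pos) (pg : g.Pos)
    (pF : F.Pos) (pG : G.Pos) (d1 : f.b + f.c' + (g.b + g.c') = 2 * π)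
    (d2 : F.b + F.c' + (G.b + G.c') = 2 * π) :
    Lf (flA a b c) f + Lf (flA a (-d) (-c)) g + Lf (flB a b c) F + Lf (flB a (-d) (-c)) G =
      TB a b c ((log (cos (b + c))).re + (log (cos (b - c))).re) f g F G +
      TU a d c ((log (cos (d + c))).re + (log (cos (d - c))).re) f g F G +
      TX a b d c f g F G := by
  have q := blkAng h
  have i1 := h.im.1
  have i2 := h.im.2
  have e1 := congrArg Complex.re h.r1
  have e2 := congrArg Complex.re h.r2
  have e3 := congrArg Complex.re h.r3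
  have e4 := congrArg Complex.re h.r4
  simp only [Complex.add_re, Complex.sub_re, re_two, re_I_mul] at e1 e2 e3 e4
  have ecc : cos (-d - c) = cos (d + c) := by rw [← Complex.cos_neg]; congr 1; ring
  have key := blk_alg
    (f.a - (flA a b c).a) (f.b - (flA a b c).b) (f.c - (flA a b c).c)
    (f.a' - (flA a b c).a') (f.b' - (flA a b c).b') (f.c' - (flA a b c).c')
    (g.a - (flA a (-d) (-c)).a) (g.b - (flA a (-d) (-c)).b) (g.c - (flA a (-d) (-c)).c)
    (g.a' - (flA a (-d) (-c)).a') (g.b' - (flA a (-d) (-c)).b') (g.c' - (flA a (-d) (-c)).c')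
    (F.a - (flB a b c).a) (F.b - (flB a b c).b) (F.c - (flB a b c).c)
    (F.a' - (flB a b c).a') (F.b' - (flB a b c).b') (F.c' - (flB a b c).c')
    (G.a - (flB a (-d) (-c)).a) (G.b - (flB a (-d) (-c)).b) (G.c - (flB a (-d) (-c)).c)
    (G.a' - (flB a (-d) (-c)).a') (G.b' - (flB a (-d) (-c)).b') (G.c' - (flB a (-d) (-c)).c')
    (log (sin a)).re (log (sin (a + c))).re (log (sin (a - c))).re
    (log (cos (a + b))).re (log (cos (a - b))).re (log (cos (a + d))).re (log (cos (a - d))).re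
    (log (cos b)).re (log (cos d)).re (log (cos (b + c))).re (log (cos (b - c))).re
    (log (cos (d + c))).re (log (cos (d - c))).re (ups a b c).re (ups a (-d) (-c)).re
    a.im b.im d.im c.im
    (by have := pf.2.2.2.1; simp only [flA, flE, th]; linarith)
    (by have := pf.2.2.2.2.2.2.2; simp only [flA, flE, th]; linarith)
    (by have := pg.2.2.2.1; simp only [flA, flE, th]; linarith)
    (by have := pg.2.2.2.2.2.2.2; simp only [flA, flE, th]; linarith)
    (by have := pF.2.2.2.1; simp only [flB, flE, th]; linarith)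
    (by have := pF.2.2.2.2.2.2.2; simp only [flB, flE, th]; linarith)
    (by have := pG.2.2.2.1; simp only [flB, flE, th]; linarith)
    (by have := pG.2.2.2.2.2.2.2; simp only [flB, flE, th]; linarith)
    (by linarith [q.dA]) (by linarith [q.dB]) (by linarith) (by linarith) (by linarith)
    (by linarith)
  have L1 : Lf (flA a b c) f = -(aB1 a b).re * (f.a - (flA a b c).a) +
      (aA1 a b).re * (f.b - (flA a b c).b) - (aB2 a b c).re * (f.a' - (flA a b c).a') +
      (aA2 a b c).re * (f.b' - (flA a b c).b') := Lf_flE (tri_a1 h.s1) (tri_a2 h.s1) pf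
  have L2 : Lf (flA a (-d) (-c)) g = -(aB1 a (-d)).re * (g.a - (flA a (-d) (-c)).a) +
      (aA1 a (-d)).re * (g.b - (flA a (-d) (-c)).b) -
      (aB2 a (-d) (-c)).re * (g.a' - (flA a (-d) (-c)).a') +
      (aA2 a (-d) (-c)).re * (g.b' - (flA a (-d) (-c)).b') :=
    Lf_flE (tri_a1 h.s2) (tri_a2 h.s2) pg
  have L3 : Lf (flB a b c) F = -(bB1 a b c).re * (F.a - (flB a b c).a) +
      (bA1 a b c).re * (F.b - (flB a b c).b) - (bB2 a b c).re * (F.a' - (flB a b c).a') +
      (bA2 a b c).re * (F.b' - (flB a b c).b') := Lf_flE (tri_b1 h.s1) (tri_b2 h.s1) pF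
  have L4 : Lf (flB a (-d) (-c)) G = -(bB1 a (-d) (-c)).re * (G.a - (flB a (-d) (-c)).a) +
      (bA1 a (-d) (-c)).re * (G.b - (flB a (-d) (-c)).b) -
      (bB2 a (-d) (-c)).re * (G.a' - (flB a (-d) (-c)).a') +
      (bA2 a (-d) (-c)).re * (G.b' - (flB a (-d) (-c)).b') :=
    Lf_flE (tri_b1 h.s2) (tri_b2 h.s2) pG
  obtain ⟨c1, c2, c3⟩ := blkCr h
  rw [L1, L2, L3, L4]
  unfold TB TU TX
  have g1 : (lgr a b).re = (log (cos (a - b))).re - (log (cos (a + b))).re := by
    simp [lgr]
  have g2 : (lgr a d).re = (log (cos (a - d))).re - (log (cos (a + d))).re := by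
    simp [lgr]
  have g3 : (lcr a c).re = (log (sin (a + c))).re - (log (sin (a - c))).re := by
    simp [lcr]
  rw [g1, g2, g3]
  simp only [aA1, aB1, aA2, aB2, bA1, bB1, bA2, bB2, Complex.cos_neg, ← sub_eq_add_neg,
    sub_neg_eq_add, ← neg_add', Complex.add_re, Complex.sub_re, re_I_mul, half_im, Complex.neg_im,
    ecc]
  linear_combination key - (log (cos b)).re * (q.BS + q.Pb + q.Qb) -
    ((log (cos (b + c))).re + (log (cos (b - c))).re) / 2 * (q.CRb + q.BA) -
    (log (cos (b + c))).re * q.CAb -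
    ((log (cos (a - b))).re - (log (cos (a + b))).re) / 2 * (q.Pb + q.Qb) - b.im * c1 -
    (log (cos d)).re * (q.TS + q.Pt + q.Qt) -
    ((log (cos (d + c))).re + (log (cos (d - c))).re) / 2 * (q.CRt + q.TA) -
    (log (cos (d + c))).re * q.CAt +
    ((log (cos (a - d))).re - (log (cos (a + d))).re) / 2 * (q.Pt + q.Qt) + d.im * c2 -
    ((log (sin (a + c))).re - (log (sin (a - c))).re) / 2 * (q.TA + q.CAt) + c.im * c3

end Pool.Agent.Y482.Cy
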