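import Pool.Agent.Y482.Cy.Blk

/-!
# The relations between the logarithms of a block
-/

set_option autoImplicit false

namespace Pool.Agent.Y482.Cy

open Complex (exp log cos sin I)
open Pool.Agent.Y482.Chi hiding tri_a1 tri_a2 tri_b1 tri_b2
open scoped Real Topology

/-- the data of a block: `a, b, d, c` are the halves of `u, ψ, ψ', χ` -/
structure BY (θ a0 δ : ℝ) (a b d c : ℂ) : Prop where
  s1 : WB θ a0 δ a b c
  s2 : WB (-θ) a0 δ a (-d) (-c)
  eq : cos (2 * a) * (1 + cos (2 * c) + cos (2 * b) + cos (2 * d)) =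
    cos (2 * c) - cos (2 * b) * cos (2 * d)
  k1 : cos (b - c) ≠ 0 ∧ |(log (cos (b - c))).im| ≤ δ
  k2 : cos (d - c) ≠ 0 ∧ |(log (cos (d - c))).im| ≤ δ
  z1 : 1 - I * exp (I * (b + c)) ≠ 0 ∧
    |(log (1 - I * exp (I * (b + c)))).im + (π / 4 - θ / 2)| ≤ δ
  z2 : 1 - I * exp (I * -(b + c)) ≠ 0 ∧
    |(log (1 - I * exp (I * -(b + c)))).im + (π / 4 + θ / 2)| ≤ δ
  z3 : 1 - I * exp (I * (d + c)) ≠ 0 ∧
    |(log (1 - I * exp (I * (d + c)))).im + (π / 4 - θ / 2)| ≤ δ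
  z4 : 1 - I * exp (I * -(d + c)) ≠ 0 ∧
    |(log (1 - I * exp (I * -(d + c)))).im + (π / 4 + θ / 2)| ≤ δ

namespace BY

variable {θ a0 δ : ℝ} {a b d c : ℂ}

/-- nonvanishing and arguments -/
lemma facts (h : BY θ a0 δ a b d c) :
    (cos b ≠ 0 ∧ |(log (cos b)).im| ≤ δ) ∧ (cos d ≠ 0 ∧ |(log (cos d)).im| ≤ δ) ∧
    (cos (b + c) ≠ 0 ∧ |(log (cos (b + c))).im| ≤ δ) ∧
    (cos (b - c) ≠ 0 ∧ |(log (cos (b - c))).im| ≤ δ) ∧
    (cos (d + c) ≠ 0 ∧ |(log (cos (d + c))).im| ≤ δ) ∧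
    (cos (d - c) ≠ 0 ∧ |(log (cos (d - c))).im| ≤ δ) ∧
    (cos (a + b) ≠ 0 ∧ |(log (cos (a + b))).im| ≤ δ) ∧
    (cos (a - b) ≠ 0 ∧ |(log (cos (a - b))).im| ≤ δ) ∧
    (cos (a + d) ≠ 0 ∧ |(log (cos (a + d))).im| ≤ δ) ∧
    (cos (a - d) ≠ 0 ∧ |(log (cos (a - d))).im| ≤ δ) ∧
    (sin (a + c) ≠ 0 ∧ |(log (sin (a + c))).im - θ| ≤ δ) ∧
    (sin (a - c) ≠ 0 ∧ |(log (sin (a - c))).im + θ| ≤ δ) ∧
    (sin a ≠ 0 ∧ |(log (sin a)).im| ≤ δ) ∧
    (uph a b c ≠ 0 ∧ |(ups a b c).im - (π / 4 + θ / 2)| ≤ δ) ∧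
    (uph a (-d) (-c) ≠ 0 ∧ |(ups a (-d) (-c)).im - (π / 4 - θ / 2)| ≤ δ) := by
  have f1 := h.s1.facts
  have f2 := h.s2.facts
  have f3 := h.s2.ups
  rw [Complex.cos_neg, ← sub_eq_add_neg, ← sub_eq_add_neg, sub_neg_eq_add, sub_neg_eq_add] at f2
  rw [show π / 4 + -θ / 2 = π / 4 - θ / 2 by ring] at f3
  have ecc : cos (-d - c) = cos (d + c) := by rw [← Complex.cos_neg]; congr 1; ring
  rw [ecc] at f2
  exact ⟨f1.1, f2.1, f1.2.1, h.k1, f2.2.1, h.k2, f1.2.2.1, f1.2.2.2.1, f2.2.2.2.1, f2.2.2.1,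
    f1.2.2.2.2.1, f2.2.2.2.2.1, f1.2.2.2.2.2, h.s1.ups, f3⟩

lemma eqp (h : BY θ a0 δ a b d c) :
    (2 * cos a ^ 2 - 1) * (2 * cos c ^ 2 + 2 * cos b ^ 2 + 2 * cos d ^ 2 - 2) =
    (2 * cos c ^ 2 - 1) - (2 * cos b ^ 2 - 1) * (2 * cos d ^ 2 - 1) := by
  have := h.eq
  rw [Complex.cos_two_mul, Complex.cos_two_mul, Complex.cos_two_mul, Complex.cos_two_mul] at this
  linear_combination this

lemma m1 (h : BY θ a0 δ a b d c) : cos (a + b) * cos (a - b) * (cos (a + d) * cos (a - d)) =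
    sin a * sin a * (sin (a + c) * sin (a - c)) := by
  rw [BX.pr1, BX.pr1, BX.pr2]
  have e := h.eqp
  have e2 := Complex.sin_sq_add_cos_sq a
  linear_combination (1 / 4) * e - (cos c ^ 2 - cos a ^ 2) * e2

lemma m3 (h : BY θ a0 δ a b d c) : cos (a + b) * cos (a - b) * (cos (d + c) * cos (d - c)) =
    cos b * cos b * (sin (a + c) * sin (a - c)) := by
  rw [BX.pr1, BX.pr1, BX.pr2]
  have e := h.eqp
  linear_combination (1 / 4) * e

lemma m4 (h : BY θ a0 δ a b d c) : cos (a + d) * cos (a - d) * (cos (b + c) * cos (b - c)) =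
    cos d * cos d * (sin (a + c) * sin (a - c)) := by
  rw [BX.pr1, BX.pr1, BX.pr2]
  have e := h.eqp
  linear_combination (1 / 4) * e

lemma m2 (h : BY θ a0 δ a b d c) : uph a (-d) (-c) * (cos (a + b) * cos (a - b)) =
    uph a b c * (sin a * sin (a - c) * exp (-(I * c))) := by
  have e := h.eqp
  have ea := Complex.sin_sq_add_cos_sq a
  have ec := Complex.sin_sq_add_cos_sq c
  have h2 : cos d ^ 2 * (cos b ^ 2 - sin a ^ 2) = sin a ^ 2 * (cos b ^ 2 - sin c ^ 2) := by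
    have e1 : sin a ^ 2 = 1 - cos a ^ 2 := by linear_combination ea
    have e2 : sin c ^ 2 = 1 - cos c ^ 2 := by linear_combination ec
    rw [e1, e2]
    linear_combination (1 / 4) * e
  have h4 : sin a * (cos (a - c) + sin (a - c) * I) - sin c = sin (a - c) * (cos a + sin a * I) := by
    rw [Complex.cos_sub, Complex.sin_sub]
    linear_combination (sin c) * ea
  have h5 : sin c * (cos (a - c) + sin (a - c) * I) - sin a = -(sin (a - c)) * (cos c - sin c * I) := by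
    rw [Complex.cos_sub, Complex.sin_sub]
    linear_combination (sin a) * ec
  have h6 : (cos c - sin c * I) * (cos (a + c) + sin (a + c) * I) = cos a + sin a * I := by
    rw [Complex.cos_add, Complex.sin_add]
    linear_combination (cos a + sin a * I) * ec -
      (sin c * (sin a * cos c + cos a * sin c)) * Complex.I_sq
  unfold uph
  rw [Complex.cos_neg, Complex.sin_neg, ← sub_eq_add_neg, BX.pr1, expI, expI, expnI]
  linear_combination (cos d ^ 2 * (cos (a - c) + sin (a - c) * I) - sin a * sin c) * ea +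
    (cos (a - c) + sin (a - c) * I) * h2 + (sin a * cos b ^ 2) * h4 - (sin a ^ 2 * sin c) * h5 -
    (sin a * cos b ^ 2 * sin (a - c)) * h6

lemma r1 (h : BY θ a0 δ a b d c) : log (cos (a + b)) + log (cos (a - b)) + log (cos (a + d)) +
    log (cos (a - d)) = 2 * log (sin a) + log (sin (a + c)) + log (sin (a - c)) := by
  obtain ⟨-, -, -, -, -, -, ⟨p1, q1⟩, ⟨p2, q2⟩, ⟨p3, q3⟩, ⟨p4, q4⟩, ⟨p5, q5⟩, ⟨p6, q6⟩, ⟨p7, q7⟩, -⟩ :=
    h.facts
  apply exp_inj'
  · rw [show 2 * log (sin a) = log (sin a) + log (sin a) by ring]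
    simp only [Complex.exp_add]
    rw [Complex.exp_log p1, Complex.exp_log p2, Complex.exp_log p3, Complex.exp_log p4,
      Complex.exp_log p5, Complex.exp_log p6, Complex.exp_log p7]
    linear_combination h.m1
  · rw [abs_le] at q1 q2 q3 q4 q5 q6 q7
    have hpi := Real.pi_gt_three
    have w0 := h.s1.hδ
    have : (2 * log (sin a)).im = 2 * (log (sin a)).im := by simp
    simp only [Complex.add_im, this]
    rw [abs_lt]
    constructor <;> linarith

lemma r3 (h : BY θ a0 δ a b d c) : log (cos (a + b)) + log (cos (a - b)) + log (cos (d + c)) +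
    log (cos (d - c)) = 2 * log (cos b) + log (sin (a + c)) + log (sin (a - c)) := by
  obtain ⟨⟨p7, q7⟩, -, -, -, ⟨p3, q3⟩, ⟨p4, q4⟩, ⟨p1, q1⟩, ⟨p2, q2⟩, -, -, ⟨p5, q5⟩, ⟨p6, q6⟩, -⟩ :=
    h.facts
  apply exp_inj'
  · rw [show 2 * log (cos b) = log (cos b) + log (cos b) by ring]
    simp only [Complex.exp_add]
    rw [Complex.exp_log p1, Complex.exp_log p2, Complex.exp_log p3, Complex.exp_log p4,
      Complex.exp_log p5, Complex.exp_log p6, Complex.exp_log p7]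
    linear_combination h.m3
  · rw [abs_le] at q1 q2 q3 q4 q5 q6 q7
    have hpi := Real.pi_gt_three
    have w0 := h.s1.hδ
    have : (2 * log (cos b)).im = 2 * (log (cos b)).im := by simp
    simp only [Complex.add_im, this]
    rw [abs_lt]
    constructor <;> linarith

lemma r4 (h : BY θ a0 δ a b d c) : log (cos (a + d)) + log (cos (a - d)) + log (cos (b + c)) +
    log (cos (b - c)) = 2 * log (cos d) + log (sin (a + c)) + log (sin (a - c)) := by
  obtain ⟨-, ⟨p7, q7⟩, ⟨p3, q3⟩, ⟨p4, q4⟩, -, -, -, -, ⟨p1, q1⟩, ⟨p2, q2⟩, ⟨p5, q5⟩, ⟨p6, q6⟩, -⟩ :=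
    h.facts
  apply exp_inj'
  · rw [show 2 * log (cos d) = log (cos d) + log (cos d) by ring]
    simp only [Complex.exp_add]
    rw [Complex.exp_log p1, Complex.exp_log p2, Complex.exp_log p3, Complex.exp_log p4,
      Complex.exp_log p5, Complex.exp_log p6, Complex.exp_log p7]
    linear_combination h.m4
  · rw [abs_le] at q1 q2 q3 q4 q5 q6 q7
    have hpi := Real.pi_gt_three
    have w0 := h.s1.hδ
    have : (2 * log (cos d)).im = 2 * (log (cos d)).im := by simp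
    simp only [Complex.add_im, this]
    rw [abs_lt]
    constructor <;> linarith

lemma r2 (h : BY θ a0 δ a b d c) : ups a (-d) (-c) = ups a b c + log (sin a) + log (sin (a - c)) - I * c -
    log (cos (a + b)) - log (cos (a - b)) := by
  obtain ⟨-, -, -, -, -, -, ⟨p1, q1⟩, ⟨p2, q2⟩, -, -, -, ⟨p6, q6⟩, ⟨p7, q7⟩, ⟨p3, q3⟩, ⟨p4, q4⟩⟩ :=
    h.facts
  have key : ups a (-d) (-c) + log (cos (a + b)) + log (cos (a - b)) =
      ups a b c + log (sin a) + log (sin (a - c)) + -(I * c) := by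
    apply exp_inj'
    · unfold Chi.ups
      simp only [Complex.exp_add]
      rw [Complex.exp_log p1, Complex.exp_log p2, Complex.exp_log p3, Complex.exp_log p4,
        Complex.exp_log p6, Complex.exp_log p7]
      linear_combination h.m2
    · have hc := h.s1.re.2.2
      rw [abs_le] at q1 q2 q3 q4 q6 q7 hc
      have hpi := Real.pi_gt_three
      have w0 := h.s1.hδ
      have : (-(I * c)).im = -c.re := by simp
      simp only [Complex.add_im, this]
      rw [abs_lt]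
      constructor <;> linarith
  linear_combination key

end BY

end Pool.Agent.Y482.Cy
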