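import Pool.Agent.Y482.Cy.Base
import Pool.Agent.Y482.Chi.Ring

/-!
# Closed 3-braids, `χ` near `i y`: the critical value is the maximal volume
-/

set_option autoImplicit false

namespace Pool.Agent.Y482.Cy

open Finset Filter
open Complex (exp log cos sin I)
open Pool.Agent.W711.HT
open Pool.Agent.W719.AR (Fl S_VLF)
open Pool.Agent.W709.VC (Dv S_TET)
open Pool.Agent.W737.AR (Lf vol_le)
open Pool.Agent.Y482 (sum_succ_mod)
open Pool.Agent.Y482.Chi hiding tri_a1 tri_a2 tri_b1 tri_b2 blkAng blkCr blk_lf triX triY triZ z_sum dvol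
  log_div_near hvt_eq crit_ang crit_vol crit_max blk_vol vol_path
open scoped Real Topology

lemma log_div_near {x y : ℂ} (hx : x ≠ 0) (hy : y ≠ 0) (h1 : |(log x).im - (log y).im| < π) :
    log (x / y) = log x - log y := by
  have e : x / y = exp (log x - log y) := by
    rw [Complex.exp_sub, Complex.exp_log hx, Complex.exp_log hy]
  rw [abs_lt] at h1
  rw [e, Complex.log_exp]
  · rw [Complex.sub_im]; linarith
  · rw [Complex.sub_im]; linarith

lemma BZ.lg1 {ψ ψ' χ u : ℂ} (h : BZ (u / 2) (ψ / 2) (ψ' / 2) (χ / 2)) :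
    Lg u ψ = lgr (u / 2) (ψ / 2) ∧ Lg u ψ' = lgr (u / 2) (ψ' / 2) ∧ Lc u χ = lcr (u / 2) (χ / 2) := by
  obtain ⟨θ, a0, δ, h⟩ := h
  obtain ⟨-, -, -, -, -, -, ⟨p1, q1⟩, ⟨p2, q2⟩, ⟨p3, q3⟩, ⟨p4, q4⟩, ⟨p5, q5⟩, ⟨p6, q6⟩, -⟩ := h.facts
  have hpi := Real.pi_gt_three
  have w0 := h.s1.hδ
  have w1 := h.s1.w1
  have w2 := h.s1.w2
  have w3 := h.s1.w3
  rw [abs_le] at q1 q2 q3 q4 q5 q6
  unfold Lg Lc lgr lcr
  rw [show (u - ψ) / 2 = u / 2 - ψ / 2 by ring, show (u + ψ) / 2 = u / 2 + ψ / 2 by ring,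
    show (u - ψ') / 2 = u / 2 - ψ' / 2 by ring, show (u + ψ') / 2 = u / 2 + ψ' / 2 by ring,
    show (u - χ) / 2 = u / 2 - χ / 2 by ring, show (u + χ) / 2 = u / 2 + χ / 2 by ring]
  refine ⟨log_div_near p2 p1 ?_, log_div_near p4 p3 ?_, log_div_near p5 p6 ?_⟩ <;>
  · rw [abs_lt]
    constructor <;> linarith

lemma BZ.pos {a b d c : ℂ} (h : BZ a b d c) : (flA a b c).Pos ∧ (flA a (-d) (-c)).Pos ∧
    (flB a b c).Pos ∧ (flB a (-d) (-c)).Pos := by
  obtain ⟨θ, a0, δ, h⟩ := h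
  exact ⟨h.s1.posA, h.s2.posA, h.s1.posB, h.s2.posB⟩

lemma BZ.ang {a b d c : ℂ} (h : BZ a b d c) :
    BlkAng (flA a b c) (flA a (-d) (-c)) (flB a b c) (flB a (-d) (-c)) (2 * b.re) (2 * d.re)
      (2 * c.re) := by
  obtain ⟨θ, a0, δ, h⟩ := h
  exact blkAng h

/-- the potential -/
lemma hvt_eq {ψ ψ' χ u : ℂ} (h : BZ (u / 2) (ψ / 2) (ψ' / 2) (χ / 2)) :
    hvt (u / 2) (ψ / 2) (ψ' / 2) (χ / 2) = hvX ψ ψ' χ u := by
  obtain ⟨θ, a0, δ, h⟩ := h
  obtain ⟨-, -, -, -, -, -, k1, k2, k3, k4, ⟨p5, q5⟩, ⟨p6, q6⟩, ⟨p7, q7⟩, -⟩ := h.facts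
  have o0 := h.s1.hδ
  have o1 := h.s1.w1
  have o2 := h.s1.w2
  have o3 := h.s1.w3
  obtain ⟨na, nb, nc⟩ := h.s1.re
  have nd := h.s2.re.2.1
  rw [Complex.neg_re, abs_neg] at nd
  have na2 : |(u / 2).re - a0| ≤ 2 * δ := by linarith
  have tadd : ∀ {x : ℂ}, |x.re| ≤ δ → |(u / 2 + x).re - a0| ≤ 2 * δ := by
    intro x hx
    rw [abs_le] at na hx
    rw [Complex.add_re, abs_le]
    constructor <;> linarith
  have tsub : ∀ {x : ℂ}, |x.re| ≤ δ → |(u / 2 - x).re - a0| ≤ 2 * δ := by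
    intro x hx
    rw [abs_le] at na hx
    rw [Complex.sub_re, abs_le]
    constructor <;> linarith
  have wp : a0 ≤ π / 2 - 20 * δ := by linarith
  have t1 := (triX (x := u / 2) (θ := 0) o0 o1 (by linarith) (by linarith)
    ⟨p7, by rwa [sub_zero]⟩ na2).dv
  have t2 := (triX (x := u / 2 + χ / 2) o0 o1 o2 o3 ⟨p5, q5⟩ (tadd nc)).dv
  have t3 := (triX (x := u / 2 - χ / 2) (θ := -θ) o0 o1 (by linarith) (by linarith)
    ⟨p6, by rwa [sub_neg_eq_add]⟩ (tsub nc)).dv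
  have t4 := (triY o0 o1 wp k2 (tsub nb)).dv
  have t5 := (triY o0 o1 wp k1 (tadd nb)).dv
  have t6 := (triY o0 o1 wp k4 (tsub nd)).dv
  have t7 := (triY o0 o1 wp k3 (tadd nd)).dv
  unfold hvt hvX
  rw [← t1, ← t2, ← t3, ← t4, ← t5, ← t6, ← t7, exp_xA, exp_xA, exp_xA, exp_yA, exp_yA, exp_yA,
    exp_yA]
  rw [show I * (2 * (u / 2)) = I * u by ring, show I * (2 * (u / 2 + χ / 2)) = I * (u + χ) by ring,
    show I * (2 * (u / 2 - χ / 2)) = I * (u - χ) by ring,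
    show -(I * (2 * (u / 2 - ψ / 2))) = I * (ψ - u) by ring,
    show -(I * (2 * (u / 2 + ψ / 2))) = -(I * (u + ψ)) by ring,
    show -(I * (2 * (u / 2 - ψ' / 2))) = I * (ψ' - u) by ring,
    show -(I * (2 * (u / 2 + ψ' / 2))) = -(I * (u + ψ')) by ring]

/-- the volume of a block in terms of that for `χ = 0` -/
theorem vol_path {b d c : ℂ} (h : ∀ t : ℝ, 0 ≤ t → t ≤ 1 → (b, d, (t : ℂ) * c) ∈ interior {p | Gd p}) :
    bv (acf (Rf b d c) / 2) b d c - hvt (acf (Rf b d c) / 2) b d c + eps (b + c) - eps (d + c) =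
    bv (acf (Rf b d 0) / 2) b d 0 - hvt (acf (Rf b d 0) / 2) b d 0 + eps b - eps d := by
  set F : ℝ → ℝ := fun t => bv (acf (Rf b d (t * c)) / 2) b d (t * c) -
    hvt (acf (Rf b d (t * c)) / 2) b d (t * c) + eps (b + t * c) - eps (d + t * c) with hF
  have hD : ∀ s ∈ Set.Icc (0 : ℝ) 1, HasDerivAt F 0 s := by
    intro s hs
    have hcont : Continuous fun t : ℝ => (b, d, (t : ℂ) * c) := by fun_prop
    have hop : ∀ᶠ t : ℝ in 𝓝 s, Gd (b, d, (t : ℂ) * c) := by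
      filter_upwards [hcont.continuousAt.preimage_mem_nhds
        (isOpen_interior.mem_nhds (h s hs.1 hs.2))] with t ht
      exact interior_subset (s := {p | Gd p}) ht
    have hcf : HasDerivAt (fun t : ℝ => (t : ℂ) * c) c s := by
      have := (Complex.ofRealCLM.hasDerivAt (x := s)).mul_const c
      simpa using this
    obtain ⟨-, d1, d2, -⟩ := hop.self_of_nhds
    simp only at d1 d2
    have c1 := hcos (hcf.const_mul 2)
    have hR : HasDerivAt (fun t : ℝ => Rf b d (t * c)) _ s :=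
      (c1.sub_const (cos (2 * b) * cos (2 * d))).div
        (((c1.const_add 1).add_const (cos (2 * b))).add_const (cos (2 * d))) d1
    have hp := (acf_diff d2).hasDerivAt.comp s hR
    exact dvol (hp.div_const 2) (by
      filter_upwards [hop] with t ht using ht.1)
  have hconst := constant_of_has_deriv_right_zero (f := F) (a := 0) (b := 1)
    (fun s hs => (hD s hs).continuousAt.continuousWithinAt)
    (fun s hs => (hD s ⟨hs.1, hs.2.le⟩).hasDerivWithinAt) 1 ⟨zero_le_one, le_rfl⟩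
  simp only [hF, Complex.ofReal_one, one_mul, Complex.ofReal_zero, zero_mul, add_zero] at hconst
  exact hconst

/-- the volume of a block -/
theorem blk_vol (hV : S_VLF) {ψ ψ' χ u : ℂ} (ne : ψ ≠ 0) (ne' : ψ' ≠ 0) (sm : ‖ψ‖ ≤ 1 / 10)
    (sm' : ‖ψ'‖ ≤ 1 / 10) (hu : u = acf (Rf (ψ / 2) (ψ' / 2) (χ / 2)))
    (h : ∀ t : ℝ, 0 ≤ t → t ≤ 1 → (ψ / 2, ψ' / 2, (t : ℂ) * (χ / 2)) ∈ interior {p | Gd p}) :
    bv (u / 2) (ψ / 2) (ψ' / 2) (χ / 2) = hvX ψ ψ' χ u + (eps (ψ / 2) - eps (ψ / 2 + χ / 2)) -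
      (eps (ψ' / 2) - eps (ψ' / 2 + χ / 2)) := by
  have hp := vol_path h
  have h1 := interior_subset (h 1 zero_le_one le_rfl)
  rw [Complex.ofReal_one, one_mul] at h1
  have hB : BZ (u / 2) (ψ / 2) (ψ' / 2) (χ / 2) := by
    have := h1.1
    simp only at this
    rw [hu]
    exact this
  rw [← hu, hvt_eq hB] at hp
  have n2 : ‖(2 : ℂ)‖ = 2 := by norm_num
  have hb : ‖ψ / 2‖ ≤ 1 / 20 := by rw [norm_div, n2]; linarith
  have hd : ‖ψ' / 2‖ ≤ 1 / 20 := by rw [norm_div, n2]; linarith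
  have h0 : ‖(0 : ℂ)‖ ≤ 1 / 20 := by simp
  set u0 := acf (Rf (ψ / 2) (ψ' / 2) 0) with hu0
  have hB0 : BX (u0 / 2) (ψ / 2) (ψ' / 2) (0 / 2) := by
    rw [zero_div]
    exact bx_acf hb hd h0
  obtain ⟨d1, d2⟩ := den_ne hb hd h0
  have hHX : HX ψ ψ' 0 u0 := by
    refine ⟨ne, ne', sm, sm', by simp, (acf_near d2).trans (by linarith [Real.pi_gt_three]), ?_⟩
    rw [hu0, acf_cos d2]
    unfold Rf
    rw [mul_zero, show 2 * (ψ / 2) = ψ by ring, show 2 * (ψ' / 2) = ψ' by ring] at d1 ⊢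
    rw [div_mul_cancel₀ _ d1]
  have e1 := Chi.blk_vol hV hHX
  have e2 := Chi.hvt_eq hB0
  rw [zero_div] at e1 e2
  rw [add_zero, add_zero, sub_self, sub_self, add_zero, sub_zero] at e1
  rw [e1, e2] at hp
  linarith

/-- a solution of the critical point equations -/
structure CritW (n : ℕ) (a : ℕ → ℤ) (m : ℤ) (z : ℕ → ℂ) (χ : ℂ) (u : ℕ → ℂ) : Prop where
  bz : ∀ j < n, BZ (u j / 2) (z j / 2) (z ((j + 1) % n) / 2) (χ / 2)
  bvol : ∀ j < n, bv (u j / 2) (z j / 2) (z ((j + 1) % n) / 2) (χ / 2) =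
    hvX (z j) (z ((j + 1) % n)) χ (u j) + (eps (z j / 2) - eps (z j / 2 + χ / 2)) -
      (eps (z ((j + 1) % n) / 2) - eps (z ((j + 1) % n) / 2 + χ / 2))
  vert : ∀ j < n, I * (a ((j + 1) % n) * z ((j + 1) % n) + 2 * π) =
    Lg (u j) (z ((j + 1) % n)) + Lg (u ((j + 1) % n)) (z ((j + 1) % n))
  axis : I * (2 * m * χ + 2 * π) = ∑ j ∈ range n, Lc (u j) χ

lemma BZ.cr {a b d c : ℂ} (h : BZ a b d c) :
    ((flA a b c).a + (flA a b c).a' + (flA a b c).c') +
      ((flB a b c).a + (flB a b c).a' + (flB a b c).c') - 2 * π =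
      2 * (lgr a b).im + 2 * (log (cos b)).im - 2 * (log (cos (b + c))).im ∧
    ((flA a (-d) (-c)).a + (flA a (-d) (-c)).a' + (flA a (-d) (-c)).c') +
      ((flB a (-d) (-c)).a + (flB a (-d) (-c)).a' + (flB a (-d) (-c)).c') - 2 * π =
      -2 * (lgr a d).im + 2 * (log (cos d)).im - 2 * (log (cos (d + c))).im ∧
    ((flA a b c).c' + (flA a b c).b' + (flA a (-d) (-c)).a') + ((flB a b c).a' +
      (flB a (-d) (-c)).a + (flB a (-d) (-c)).c + (flB a (-d) (-c)).b') - 2 * π =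
      -2 * (lcr a c).im + 2 * (log (cos (b + c))).im - 2 * (log (cos (d + c))).im := by
  obtain ⟨θ, a0, δ, h⟩ := h
  exact blkCr h

theorem BZ.lf {a b d c : ℂ} (h : BZ a b d c) {f g F G : Fl} (pf : f.Pos) (pg : g.Pos)
    (pF : F.Pos) (pG : G.Pos) (d1 : f.b + f.c' + (g.b + g.c') = 2 * π)
    (d2 : F.b + F.c' + (G.b + G.c') = 2 * π) :
    Lf (flA a b c) f + Lf (flA a (-d) (-c)) g + Lf (flB a b c) F + Lf (flB a (-d) (-c)) G =
      TB a b c ((log (cos (b + c))).re + (log (cos (b - c))).re) f g F G +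
      TU a d c ((log (cos (d + c))).re + (log (cos (d - c))).re) f g F G +
      TX a b d c f g F G := by
  obtain ⟨θ, a0, δ, h⟩ := h
  exact blk_lf h pf pg pF pG d1 d2

section

variable {n : ℕ} {a : ℕ → ℤ} {m : ℤ} {z : ℕ → ℂ} {χ : ℂ} {u : ℕ → ℂ}

lemma CritW.lgr (h : CritW n a m z χ u) {j : ℕ} (hj : j < n) :
    I * (a ((j + 1) % n) * (2 * (z ((j + 1) % n) / 2)) + 2 * π) =
      lgr (u j / 2) (z ((j + 1) % n) / 2) +
      Chi.lgr (u ((j + 1) % n) / 2) (z ((j + 1) % n) / 2) := by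
  have h1 : (j + 1) % n < n := Nat.mod_lt _ (by omega)
  rw [← (h.bz j hj).lg1.2.1, ← (h.bz _ h1).lg1.1, show 2 * (z ((j + 1) % n) / 2) = z ((j + 1) % n) by
    ring]
  exact h.vert j hj

lemma CritW.lcr (h : CritW n a m z χ u) :
    I * (2 * m * (2 * (χ / 2)) + 2 * π) = ∑ j ∈ range n, lcr (u j / 2) (χ / 2) := by
  rw [show 2 * (χ / 2) = χ by ring, h.axis]
  refine sum_congr rfl fun j hj => ?_
  rw [mem_range] at hj
  exact (h.bz j hj).lg1.2.2

theorem crit_ang (hn : 1 ≤ n) (h : CritW n a m z χ u) :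
    ChiAng n a m (fun j => flA (u j / 2) (z j / 2) (χ / 2))
      (fun j => flA (u j / 2) (-(z ((j + 1) % n) / 2)) (-(χ / 2)))
      (fun j => flB (u j / 2) (z j / 2) (χ / 2))
      (fun j => flB (u j / 2) (-(z ((j + 1) % n) / 2)) (-(χ / 2))) := by
  refine ⟨?_, ?_, ?_, ?_⟩
  · intro j hj
    exact (h.bz j hj).pos
  · intro j hj
    exact ⟨((h.bz j hj).ang).dA, ((h.bz j hj).ang).dB⟩
  · intro j hj
    have h1 : (j + 1) % n < n := Nat.mod_lt _ (by omega)
    have q := (h.bz j hj).ang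
    have q' := (h.bz _ h1).ang
    refine ⟨?_, ?_, ?_, ?_, ?_, ?_, ?_⟩
    · linarith [q.TS, q'.BS]
    · linarith [q.TA, q'.BA]
    · linarith [q.CAt, q'.CAb]
    · linarith [q.CRt, q'.CRb]
    · intro _
      exact ⟨by linarith [q.Pt, q'.Pb], by linarith [q.Qt, q'.Qb]⟩
    · intro _
      exact ⟨by linarith [q.Qt, q'.Pb], by linarith [q.Pt, q'.Qb]⟩
    · obtain ⟨-, c2, -⟩ := (h.bz j hj).cr
      obtain ⟨c1, -, -⟩ := (h.bz _ h1).cr
      have he := congrArg Complex.im (h.lgr hj)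
      rw [Complex.add_im, im_I_mul] at he
      simp only [Complex.add_re, Complex.mul_re, Complex.intCast_re, Complex.intCast_im, zero_mul,
        sub_zero, Complex.re_ofNat, Complex.im_ofNat, Complex.ofReal_re, Complex.ofReal_im] at he
      unfold Fl.cr Fl.tw
      have q1 := q'.Pb
      have q2 := q'.Qb
      linear_combination c1 - c2 - 2 * he - (a ((j + 1) % n) : ℝ) * q1 - (a ((j + 1) % n) : ℝ) * q2
  · have h0 : 0 < n := by omega
    have hr : ∀ j ∈ range n, rho (flA (u j / 2) (z j / 2) (χ / 2))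
        (flA (u j / 2) (-(z ((j + 1) % n) / 2)) (-(χ / 2)))
        (flB (u j / 2) (z j / 2) (χ / 2))
        (flB (u j / 2) (-(z ((j + 1) % n) / 2)) (-(χ / 2))) =
        -2 * (Chi.lcr (u j / 2) (χ / 2)).im + (2 * (log (cos (z j / 2 + χ / 2))).im -
          2 * (log (cos (z ((j + 1) % n) / 2 + χ / 2))).im) := by
      intro j hj
      rw [mem_range] at hj
      obtain ⟨-, -, c3⟩ := (h.bz j hj).cr
      unfold rho
      linarith
    rw [sum_congr rfl hr, sum_add_distrib, sum_sub_distrib,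
      sum_succ_mod n hn (fun j => 2 * (log (cos (z j / 2 + χ / 2))).im), sub_self, add_zero,
      ← mul_sum]
    have he := congrArg Complex.im h.lcr
    rw [Complex.im_sum, im_I_mul] at he
    have e1 : (2 * (m : ℂ) * (2 * (χ / 2)) + 2 * π).re = 2 * m * (2 * (χ / 2).re) + 2 * π := by
      simp
    rw [e1] at he
    rw [← he]
    have q := (h.bz 0 h0).ang
    have q1 := q.TA
    have q2 := q.CAt
    unfold rlam
    linear_combination (2 * (m : ℝ)) * q1 + 2 * (m : ℝ) * q2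

theorem crit_vol (hn : 1 ≤ n) (h : CritW n a m z χ u) :
    chiVol n (fun j => flA (u j / 2) (z j / 2) (χ / 2))
      (fun j => flA (u j / 2) (-(z ((j + 1) % n) / 2)) (-(χ / 2)))
      (fun j => flB (u j / 2) (z j / 2) (χ / 2))
      (fun j => flB (u j / 2) (-(z ((j + 1) % n) / 2)) (-(χ / 2))) =
      ∑ j ∈ range n, hvX (z j) (z ((j + 1) % n)) χ (u j) := by
  unfold chiVol
  have hr : ∀ j ∈ range n, (flA (u j / 2) (z j / 2) (χ / 2)).vol +
      (flA (u j / 2) (-(z ((j + 1) % n) / 2)) (-(χ / 2))).vol +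
      (flB (u j / 2) (z j / 2) (χ / 2)).vol +
      (flB (u j / 2) (-(z ((j + 1) % n) / 2)) (-(χ / 2))).vol =
      hvX (z j) (z ((j + 1) % n)) χ (u j) + ((eps (z j / 2) - eps (z j / 2 + χ / 2)) -
        (eps (z ((j + 1) % n) / 2) - eps (z ((j + 1) % n) / 2 + χ / 2))) := by
    intro j hj
    rw [mem_range] at hj
    have := h.bvol j hj
    unfold bv at this
    rw [this]
    ring
  rw [sum_congr rfl hr, sum_add_distrib, sum_sub_distrib,
    sum_succ_mod n hn (fun j => eps (z j / 2) - eps (z j / 2 + χ / 2)), sub_self, add_zero]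

theorem crit_max (htet : S_TET) (hn : 1 ≤ n) (h : CritW n a m z χ u) {f g F G : ℕ → Fl}
    (hy : ChiAng n a m f g F G) :
    chiVol n f g F G ≤ chiVol n (fun j => flA (u j / 2) (z j / 2) (χ / 2))
      (fun j => flA (u j / 2) (-(z ((j + 1) % n) / 2)) (-(χ / 2)))
      (fun j => flB (u j / 2) (z j / 2) (χ / 2))
      (fun j => flB (u j / 2) (-(z ((j + 1) % n) / 2)) (-(χ / 2))) := by
  have h0 : 0 < n := by omega
  -- the rotation along the longitude of the axis is constant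
  have hR : ∀ j < n, rlam (f j) (g j) (F j) (G j) = rlam (f 0) (g 0) (F 0) (G 0) := by
    intro j
    induction j with
    | zero => intro _; rfl
    | succ k ih =>
      intro hk
      have hk' : k < n := by omega
      have e : (k + 1) % n = k + 1 := Nat.mod_eq_of_lt hk
      have hv := hy.vert k hk'
      rw [e] at hv
      obtain ⟨p1, p2, p3, p4⟩ := hy.pos _ hk
      obtain ⟨d1, d2⟩ := hy.diag _ hk
      rw [rlam_step hv p1 p2 p3 p4 d1 d2, ih hk']
  have h1 : chiVol n f g F G ≤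
      chiVol n (fun j => flA (u j / 2) (z j / 2) (χ / 2))
      (fun j => flA (u j / 2) (-(z ((j + 1) % n) / 2)) (-(χ / 2)))
      (fun j => flB (u j / 2) (z j / 2) (χ / 2))
      (fun j => flB (u j / 2) (-(z ((j + 1) % n) / 2)) (-(χ / 2))) -
      ∑ j ∈ range n, (TB (u j / 2) (z j / 2) (χ / 2) ((log (cos (z j / 2 + χ / 2))).re +
          (log (cos (z j / 2 - χ / 2))).re) (f j) (g j) (F j) (G j) +
        TU (u j / 2) (z ((j + 1) % n) / 2) (χ / 2) ((log (cos (z ((j + 1) % n) / 2 + χ / 2))).re +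
          (log (cos (z ((j + 1) % n) / 2 - χ / 2))).re) (f j) (g j) (F j) (G j) +
        TX (u j / 2) (z j / 2) (z ((j + 1) % n) / 2) (χ / 2) (f j) (g j) (F j) (G j)) := by
    unfold chiVol
    rw [← sum_sub_distrib]
    refine sum_le_sum fun j hj => ?_
    rw [mem_range] at hj
    have hB := h.bz j hj
    obtain ⟨b1, b2, b3, b4⟩ := hB.pos
    obtain ⟨p1, p2, p3, p4⟩ := hy.pos j hj
    obtain ⟨d1, d2⟩ := hy.diag j hj
    have key := hB.lf p1 p2 p3 p4 d1 d2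
    have v1 := vol_le htet _ (f j) b1 p1
    have v2 := vol_le htet _ (g j) b2 p2
    have v3 := vol_le htet _ (F j) b3 p3
    have v4 := vol_le htet _ (G j) b4 p4
    linarith
  have h2 : ∑ j ∈ range n, (TB (u j / 2) (z j / 2) (χ / 2) ((log (cos (z j / 2 + χ / 2))).re +
          (log (cos (z j / 2 - χ / 2))).re) (f j) (g j) (F j) (G j) +
        TU (u j / 2) (z ((j + 1) % n) / 2) (χ / 2) ((log (cos (z ((j + 1) % n) / 2 + χ / 2))).re +
          (log (cos (z ((j + 1) % n) / 2 - χ / 2))).re) (f j) (g j) (F j) (G j) +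
        TX (u j / 2) (z j / 2) (z ((j + 1) % n) / 2) (χ / 2) (f j) (g j) (F j) (G j)) = 0 := by
    rw [sum_add_distrib, sum_add_distrib,
      ← sum_succ_mod n hn (fun j => TB (u j / 2) (z j / 2) (χ / 2)
        ((log (cos (z j / 2 + χ / 2))).re + (log (cos (z j / 2 - χ / 2))).re)
        (f j) (g j) (F j) (G j)), ← sum_add_distrib]
    have e1 : ∑ j ∈ range n, (TB (u ((j + 1) % n) / 2) (z ((j + 1) % n) / 2) (χ / 2)
        ((log (cos (z ((j + 1) % n) / 2 + χ / 2))).re +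
          (log (cos (z ((j + 1) % n) / 2 - χ / 2))).re)
        (f ((j + 1) % n)) (g ((j + 1) % n)) (F ((j + 1) % n)) (G ((j + 1) % n)) +
        TU (u j / 2) (z ((j + 1) % n) / 2) (χ / 2) ((log (cos (z ((j + 1) % n) / 2 + χ / 2))).re +
          (log (cos (z ((j + 1) % n) / 2 - χ / 2))).re) (f j) (g j) (F j) (G j)) = 0 := by
      refine sum_eq_zero fun j hj => ?_
      rw [mem_range] at hj
      exact vertexX (hy.vert j hj) (h.lgr hj) _
    rw [e1, zero_add]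
    have e2 : ∀ j ∈ range n, TX (u j / 2) (z j / 2) (z ((j + 1) % n) / 2) (χ / 2) (f j) (g j) (F j)
        (G j) = (Chi.lcr (u j / 2) (χ / 2)).re *
          ((rlam (f 0) (g 0) (F 0) (G 0) - 4 * (χ / 2).re) / 2) +
        (-(χ / 2).im) * (rho (f j) (g j) (F j) (G j)) +
        (-2 * (χ / 2).im) * (Chi.lcr (u j / 2) (χ / 2)).im +
        ((χ / 2).im * (2 * (log (cos (z j / 2 + χ / 2))).im) -
        (χ / 2).im * (2 * (log (cos (z ((j + 1) % n) / 2 + χ / 2))).im)) := by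
      intro j hj
      rw [mem_range] at hj
      have := hR j hj
      rw [← this]
      unfold TX rlam rho
      ring
    rw [sum_congr rfl e2, sum_add_distrib, sum_add_distrib, sum_add_distrib, sum_sub_distrib,
      sum_succ_mod n hn (fun j => (χ / 2).im * (2 * (log (cos (z j / 2 + χ / 2))).im)), sub_self,
      add_zero, ← sum_mul, ← mul_sum, ← mul_sum, hy.fill]
    have he := congrArg Complex.im h.lcr
    have hf := congrArg Complex.re h.lcr
    rw [Complex.im_sum, im_I_mul] at he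
    rw [Complex.re_sum, re_I_mul] at hf
    have g1 : (2 * (m : ℂ) * (2 * (χ / 2)) + 2 * π).re = 2 * m * (2 * (χ / 2).re) + 2 * π := by
      simp
    have g2 : (2 * (m : ℂ) * (2 * (χ / 2)) + 2 * π).im = 2 * m * (2 * (χ / 2).im) := by
      simp
    rw [g1] at he
    rw [g2] at hf
    rw [← he, ← hf]
    ring
  rw [h2] at h1
  linarith

end

theorem geow (htet : S_TET) {n : ℕ} {a : ℕ → ℤ} {m : ℤ} {z : ℕ → ℂ} {χ : ℂ} {u : ℕ → ℂ}
    (hn : 1 ≤ n) (h : CritW n a m z χ u) :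
    IsGreatest {W : ℝ | ∃ f g F G : ℕ → Fl, ChiAng n a m f g F G ∧ chiVol n f g F G = W}
      (∑ j ∈ range n, hvX (z j) (z ((j + 1) % n)) χ (u j)) := by
  refine ⟨⟨_, _, _, _, crit_ang hn h, crit_vol hn h⟩, ?_⟩
  rintro W ⟨f, g, F, G, hy, rfl⟩
  rw [← crit_vol hn h]
  exact crit_max htet hn h hy

end Pool.Agent.Y482.Cy
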