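import Pool.Agent.Y482.Cy.Max
import Pool.Agent.Y482.Chi.Path

/-!
# The volume of a block
-/

set_option autoImplicit false

namespace Pool.Agent.Y482.Cy

open Filter
open Complex (exp log cos sin I)
open Pool.Agent.W719.AR (Fl)
open Pool.Agent.Y482.Chi hiding tri_a1 tri_a2 tri_b1 tri_b2 blkAng blkCr blk_lf triX triY triZ z_sum dvol
open scoped Real Topology

theorem triX {x : ℂ} {θ a0 δ : ℝ} (h0 : 0 < δ ∧ δ ≤ 1 / 100) (h1 : 20 * δ ≤ a0)
    (h2 : a0 + θ ≤ π / 2 - 20 * δ) (h3 : a0 - θ ≤ π / 2 - 20 * δ)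
    (hs : sin x ≠ 0 ∧ |(log (sin x)).im - θ| ≤ δ) (k3 : |x.re - a0| ≤ 2 * δ) : Tri (xA x) (xB x) := by
  obtain ⟨k1, k2⟩ := hs
  rw [abs_le] at k2 k3
  have hpi := Real.pi_gt_three
  have i1 : (xA x).im = 2 * x.re := by
    unfold xA
    rw [im_I_mul]
    simp
  have i2 : (xB x).im = π / 2 - x.re - (log (sin x)).im := by
    unfold xB
    simp only [Complex.sub_im, im_I_mul, half_re, Complex.ofReal_im, sub_zero]
  refine ⟨?_, ?_, ?_, ?_⟩
  · unfold xA xB
    rw [show -(I * (π / 2) - I * x - log (sin x) - (Real.log 2 : ℝ)) =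
      -(I * (π / 2)) + I * x + log (sin x) + (Real.log 2 : ℝ) by ring, Complex.exp_add,
      Complex.exp_add, Complex.exp_add, Complex.exp_log k1, exp_log2, exp_nhalf, expI, expI,
      Complex.cos_two_mul, Complex.sin_two_mul]
    linear_combination 2 * Complex.sin_sq_add_cos_sq x - 2 * sin x ^ 2 * Complex.I_sq
  · rw [i1]; linarith
  · rw [i2]; linarith
  · rw [i1, i2]; linarith

theorem triY {y : ℂ} {a0 δ : ℝ} (h0 : 0 < δ ∧ δ ≤ 1 / 100) (h1 : 20 * δ ≤ a0)
    (h2 : a0 ≤ π / 2 - 20 * δ)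
    (hs : cos y ≠ 0 ∧ |(log (cos y)).im| ≤ δ) (k3 : |y.re - a0| ≤ 2 * δ) : Tri (yA y) (yB y) := by
  obtain ⟨k1, k2⟩ := hs
  rw [abs_le] at k2 k3
  have hpi := Real.pi_gt_three
  have i1 : (yA y).im = π - 2 * y.re := by
    unfold yA
    rw [Complex.sub_im, im_I_mul, im_I_mul, pi_re]
    simp
  have i2 : (yB y).im = y.re - (log (cos y)).im := by
    unfold yB
    simp only [Complex.sub_im, im_I_mul, Complex.ofReal_im, sub_zero]
  refine ⟨?_, ?_, ?_, ?_⟩
  · unfold yA yB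
    rw [show -(I * y - log (cos y) - (Real.log 2 : ℝ)) =
      -(I * y) + log (cos y) + (Real.log 2 : ℝ) by ring, Complex.exp_sub, mul_comm I (π : ℂ),
      Complex.exp_pi_mul_I,
      Complex.exp_add, Complex.exp_add, Complex.exp_log k1, exp_log2, expnI, expI,
      Complex.cos_two_mul, Complex.sin_two_mul]
    have hh1 : (2 * cos y ^ 2 - 1 + 2 * sin y * cos y * I) * (2 * cos y ^ 2 - 1 - 2 * sin y * cos y * I) = 1 := by
      linear_combination (4 * cos y ^ 2) * Complex.sin_sq_add_cos_sq y -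
        (4 * sin y ^ 2 * cos y ^ 2) * Complex.I_sq
    have hh2 : (2 * cos y ^ 2 - 1 + 2 * sin y * cos y * I) ≠ 0 := left_ne_zero_of_mul_eq_one hh1
    rw [neg_div, one_div, (inv_eq_of_mul_eq_one_right hh1)]
    ring
  · rw [i1]; linarith
  · rw [i2]; linarith
  · rw [i1, i2]; linarith

theorem triZ {x : ℂ} {θ a0 δ : ℝ} (h0 : 0 < δ ∧ δ ≤ 1 / 100) (h1 : 20 * δ ≤ a0)
    (h2 : a0 + θ ≤ π / 2 - 20 * δ) (h3 : a0 - θ ≤ π / 2 - 20 * δ)
    (hs : 1 - I * exp (I * x) ≠ 0 ∧ |(log (1 - I * exp (I * x))).im + (π / 4 - θ / 2)| ≤ δ)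
    (k3 : |x.re| ≤ 2 * δ) : Tri (zA x) (zB x) := by
  obtain ⟨k1, k2⟩ := hs
  rw [abs_le] at k2 k3
  have hpi := Real.pi_gt_three
  have i1 : (zA x).im = π / 2 + x.re := by
    unfold zA
    rw [Complex.add_im, im_I_mul, im_I_mul, half_re]
  have i2 : (zB x).im = -(log (1 - I * exp (I * x))).im := by
    unfold zB
    simp
  refine ⟨?_, ?_, ?_, ?_⟩
  · unfold zA zB
    rw [Complex.exp_add, exp_half, neg_neg, Complex.exp_log k1]
    ring
  · rw [i1]; linarith
  · rw [i2]; linarith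
  · rw [i1, i2]; linarith

lemma z_sum {x : ℂ} {θ δ : ℝ} (h0 : 0 < δ ∧ δ ≤ 1 / 100)
    (h1 : 1 - I * exp (I * x) ≠ 0 ∧ |(log (1 - I * exp (I * x))).im + (π / 4 - θ / 2)| ≤ δ)
    (h2 : 1 - I * exp (I * -x) ≠ 0 ∧ |(log (1 - I * exp (I * -x))).im + (π / 4 + θ / 2)| ≤ δ)
    (h3 : cos x ≠ 0 ∧ |(log (cos x)).im| ≤ δ) :
    zB x + zB (-x) = I * (π / 2) - log (cos x) - (Real.log 2 : ℝ) := by
  obtain ⟨k1, k2⟩ := h1
  obtain ⟨k3, k4⟩ := h2
  obtain ⟨k5, k6⟩ := h3
  have hpi := Real.pi_gt_three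
  have key : log (1 - I * exp (I * x)) + log (1 - I * exp (I * (-x))) =
      -(I * (π / 2)) + log (cos x) + (Real.log 2 : ℝ) := by
    apply exp_inj'
    · rw [Complex.exp_add, Complex.exp_add, Complex.exp_add, Complex.exp_log k1,
        Complex.exp_log k3, Complex.exp_log k5, exp_log2, exp_nhalf, expI,
        show I * -x = -(I * x) by ring, expnI]
      linear_combination (cos x ^ 2 * I ^ 2 - sin x ^ 2 * I ^ 4 - I ^ 2 * cos x ^ 2 + 0) * 0 +
        (cos x ^ 2 - sin x ^ 2 * (I ^ 2 - 1)) * Complex.I_sq - Complex.sin_sq_add_cos_sq x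
    · rw [abs_le] at k2 k4 k6
      simp only [Complex.add_im, Complex.neg_im, im_I_mul, half_re, Complex.ofReal_im, add_zero]
      rw [abs_lt]
      constructor <;> linarith
  unfold zB
  linear_combination -key

lemma dlog' {f : ℝ → ℂ} {f' : ℂ} {s : ℝ} (hf : HasDerivAt f f' s) (h0 : f s ≠ 0)
    (h1 : |(log (f s)).im| < π) : ∃ p, HasDerivAt (fun t => log (f t)) p s := by
  refine ⟨_, HasDerivAt.clog_real hf ?_⟩
  rw [Complex.mem_slitPlane_iff_arg]
  refine ⟨?_, h0⟩
  intro h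
  rw [Complex.log_im, h, abs_of_pos Real.pi_pos] at h1
  exact lt_irrefl _ h1

theorem dvol {af : ℝ → ℂ} {a' b d c : ℂ} {s : ℝ} (haf : HasDerivAt af a' s)
    (hev : ∀ᶠ t : ℝ in 𝓝 s, ∃ θ a0 δ : ℝ, BY θ a0 δ (af t) b d (t * c)) :
    HasDerivAt (fun t : ℝ => bv (af t) b d (t * c) - hvt (af t) b d (t * c) + eps (b + t * c) -
      eps (d + t * c)) 0 s := by
  obtain ⟨θ, a0, δ, h⟩ := hev.self_of_nhds
  have hcf : HasDerivAt (fun t : ℝ => (t : ℂ) * c) c s := by
    have := (Complex.ofRealCLM.hasDerivAt (x := s)).mul_const c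
    simpa using this
  obtain ⟨⟨kb, ib⟩, ⟨kd, id⟩, ⟨kK, iK⟩, -, ⟨kE, iE⟩, -, ⟨kCp, iCp⟩, ⟨kCm, iCm⟩, ⟨kDp, iDp⟩, ⟨kDm, iDm⟩,
    ⟨ksp, isp⟩, ⟨ksm, ism⟩, ⟨ksa, isa⟩, ⟨kU, iU⟩, ⟨kUt, iUt⟩⟩ := h.facts
  have hpi3 := Real.pi_gt_three
  have o0 := h.s1.hδ
  have o1 := h.s1.w1
  have o2 := h.s1.w2
  have o3 := h.s1.w3
  have le2 : ∀ {x : ℝ}, |x| ≤ δ → |x| < π := fun h => h.trans_lt (by linarith)
  have le1 : ∀ {x : ℝ}, |x - θ| ≤ δ → |x| < π := fun h => by
    rw [abs_le] at h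
    rw [abs_lt]
    constructor <;> linarith
  have le1' : ∀ {x : ℝ}, |x + θ| ≤ δ → |x| < π := fun h => by
    rw [abs_le] at h
    rw [abs_lt]
    constructor <;> linarith
  have le3 : ∀ {x : ℝ}, |x - (π / 4 + θ / 2)| ≤ δ → |x| < π := fun h => by
    rw [abs_le] at h
    rw [abs_lt]
    constructor <;> linarith
  have le3' : ∀ {x : ℝ}, |x - (π / 4 - θ / 2)| ≤ δ → |x| < π := fun h => by
    rw [abs_le] at h
    rw [abs_lt]
    constructor <;> linarith
  have le4 : ∀ {x : ℝ}, |x + (π / 4 + θ / 2)| ≤ δ → |x| < π := fun h => by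
    rw [abs_le] at h
    rw [abs_lt]
    constructor <;> linarith
  have le4' : ∀ {x : ℝ}, |x + (π / 4 - θ / 2)| ≤ δ → |x| < π := fun h => by
    rw [abs_le] at h
    rw [abs_lt]
    constructor <;> linarith
  obtain ⟨psa, hsa⟩ := dlog' (hsin haf) ksa (le2 isa)
  obtain ⟨psp, hsp⟩ := dlog' (hsin (haf.add hcf)) ksp (le1 isp)
  obtain ⟨psm, hsm⟩ := dlog' (hsin (haf.sub hcf)) ksm (le1' ism)
  obtain ⟨pCp, hCp⟩ := dlog' (hcos (haf.add_const b)) kCp (le2 iCp)
  obtain ⟨pCm, hCm⟩ := dlog' (hcos (haf.sub_const b)) kCm (le2 iCm)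
  obtain ⟨pDp, hDp⟩ := dlog' (hcos (haf.add_const d)) kDp (le2 iDp)
  obtain ⟨pDm, hDm⟩ := dlog' (hcos (haf.sub_const d)) kDm (le2 iDm)
  obtain ⟨pK, hK⟩ := dlog' (hcos (hcf.const_add b)) kK (le2 iK)
  obtain ⟨pE, hE⟩ := dlog' (hcos (hcf.const_add d)) kE (le2 iE)
  obtain ⟨pU, hU⟩ : ∃ p, HasDerivAt (fun t : ℝ => ups (af t) b (t * c)) p s := by
    have h1 : HasDerivAt (fun t : ℝ => uph (af t) b (t * c)) _ s :=
      ((hexp ((haf.add hcf).const_mul I)).const_mul (cos b ^ 2)).add ((hsin haf).mul (hsin hcf))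
    exact dlog' h1 kU (le3 iU)
  obtain ⟨pUt, hUt⟩ : ∃ p, HasDerivAt (fun t : ℝ => ups (af t) (-d) (-(t * c))) p s := by
    have h1 : HasDerivAt (fun t : ℝ => uph (af t) (-d) (-(t * c))) _ s :=
      ((hexp ((haf.add hcf.neg).const_mul I)).const_mul (cos (-d) ^ 2)).add
        ((hsin haf).mul (hsin hcf.neg))
    exact dlog' h1 kUt (le3' iUt)
  -- relations between the derivatives
  have q1 : pCp + pCm + pDp + pDm = 2 * psa + psp + psm :=
    deq (((hCp.add hCm).add hDp).add hDm) (((hsa.const_mul 2).add hsp).add hsm) (by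
      filter_upwards [hev] with t ht
      obtain ⟨_, _, _, ht⟩ := ht
      exact ht.r1)
  have q2 : pUt = pU + psa + psm - I * c - pCp - pCm :=
    deq hUt (((((hU.add hsa).add hsm).sub (hcf.const_mul I)).sub hCp).sub hCm) (by
      filter_upwards [hev] with t ht
      obtain ⟨_, _, _, ht⟩ := ht
      exact ht.r2)
  -- the eight tetrahedra
  have v1 := (tri_a1 h.s1).hasDeriv (A := fun t => aA1 (af t) b) (B := fun t => aB1 (af t) b)
    (((haf.const_mul I).const_add (log (cos b))).sub hCp)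
    (((hCp.const_add (I * (π / 2))).add_const (I * b)).sub hsa)
  have v2 := (tri_a2 h.s1).hasDeriv (A := fun t : ℝ => aA2 (af t) b (t * c))
    (B := fun t : ℝ => aB2 (af t) b (t * c))
    ((((hsp.const_add (I * (π / 2))).sub (haf.const_mul I)).add_const (I * b)).sub hK)
    (((hK.add (haf.const_mul I)).add (hcf.const_mul I)).sub hCm)
  have v3 := (tri_b1 h.s1).hasDeriv (A := fun t : ℝ => bA1 (af t) b (t * c))
    (B := fun t : ℝ => bB1 (af t) b (t * c))
    ((hU.sub hCp).sub hK)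
    ((((hCp.const_add (I * (π / 2) + I * b)).add hK).sub_const (log (cos b))).sub hsp)
  have v4 := (tri_b2 h.s1).hasDeriv (A := fun t : ℝ => bA2 (af t) b (t * c))
    (B := fun t : ℝ => bB2 (af t) b (t * c))
    ((((hsa.const_add (I * (π / 2))).add_const (I * b)).add hK).sub hU)
    (((hU.sub (hcf.const_mul I)).sub hCm).sub_const (log (cos b)))
  have E : ∀ t : ℝ, _ := fun t => top_eq (af t) d (t * c)
  have w1 := (tri_a1 h.s2).hasDeriv (A := fun t => aA1 (af t) (-d)) (B := fun t => aB1 (af t) (-d))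
    ((((haf.const_mul I).const_add (log (cos d))).sub hDm).congr_of_eventuallyEq
      (Eventually.of_forall fun t => (E t).1))
    ((((hDm.const_add (I * (π / 2))).sub_const (I * d)).sub hsa).congr_of_eventuallyEq
      (Eventually.of_forall fun t => (E t).2.1))
  have w2 := (tri_a2 h.s2).hasDeriv (A := fun t : ℝ => aA2 (af t) (-d) (-(t * c)))
    (B := fun t : ℝ => aB2 (af t) (-d) (-(t * c)))
    (((((hsm.const_add (I * (π / 2))).sub (haf.const_mul I)).sub_const (I * d)).sub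
      hE).congr_of_eventuallyEq (Eventually.of_forall fun t => (E t).2.2.1))
    ((((hE.add (haf.const_mul I)).sub (hcf.const_mul I)).sub hDp).congr_of_eventuallyEq
      (Eventually.of_forall fun t => (E t).2.2.2.1))
  have w3 := (tri_b1 h.s2).hasDeriv (A := fun t : ℝ => bA1 (af t) (-d) (-(t * c)))
    (B := fun t : ℝ => bB1 (af t) (-d) (-(t * c)))
    (((hUt.sub hDm).sub hE).congr_of_eventuallyEq
      (Eventually.of_forall fun t => (E t).2.2.2.2.1))
    (((((hDm.const_add (I * (π / 2) - I * d)).add hE).sub_const (log (cos d))).sub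
      hsm).congr_of_eventuallyEq (Eventually.of_forall fun t => (E t).2.2.2.2.2.1))
  have w4 := (tri_b2 h.s2).hasDeriv (A := fun t : ℝ => bA2 (af t) (-d) (-(t * c)))
    (B := fun t : ℝ => bB2 (af t) (-d) (-(t * c)))
    (((((hsa.const_add (I * (π / 2))).sub_const (I * d)).add hE).sub hUt).congr_of_eventuallyEq
      (Eventually.of_forall fun t => (E t).2.2.2.2.2.2.1))
    ((((hUt.add (hcf.const_mul I)).sub hDp).sub_const (log (cos d))).congr_of_eventuallyEq
      (Eventually.of_forall fun t => (E t).2.2.2.2.2.2.2))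
  -- the tetrahedra of the potential
  obtain ⟨na, nb, nc⟩ := h.s1.re
  have nd := h.s2.re.2.1
  rw [Complex.neg_re, abs_neg] at nd
  have na2 : |(af s).re - a0| ≤ 2 * δ := by linarith
  have tadd : ∀ {x : ℂ}, |x.re| ≤ δ → |(af s + x).re - a0| ≤ 2 * δ := by
    intro x hx
    rw [abs_le] at na hx
    rw [Complex.add_re, abs_le]
    constructor <;> linarith
  have tsub : ∀ {x : ℂ}, |x.re| ≤ δ → |(af s - x).re - a0| ≤ 2 * δ := by
    intro x hx
    rw [abs_le] at na hx
    rw [Complex.sub_re, abs_le]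
    constructor <;> linarith
  have wp : a0 ≤ π / 2 - 20 * δ := by linarith
  have x1 := (triX (x := af s) (θ := 0) o0 o1 (by linarith) (by linarith)
      ⟨ksa, by rwa [sub_zero]⟩ na2).hasDeriv (A := fun t => xA (af t))
    (B := fun t => xB (af t)) ((haf.const_mul 2).const_mul I)
    (((haf.const_mul I).const_sub (I * (π / 2))).sub hsa |>.sub_const _)
  have x2 := (triX (x := af s + s * c) o0 o1 o2 o3 ⟨ksp, isp⟩ (tadd nc)).hasDeriv
    (A := fun t => xA (af t + t * c))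
    (B := fun t => xB (af t + t * c)) (((haf.add hcf).const_mul 2).const_mul I)
    ((((haf.add hcf).const_mul I).const_sub (I * (π / 2))).sub hsp |>.sub_const _)
  have x3 := (triX (x := af s - s * c) (θ := -θ) o0 o1 (by linarith) (by linarith)
      ⟨ksm, by rwa [sub_neg_eq_add]⟩ (tsub nc)).hasDeriv (A := fun t => xA (af t - t * c))
    (B := fun t => xB (af t - t * c)) (((haf.sub hcf).const_mul 2).const_mul I)
    ((((haf.sub hcf).const_mul I).const_sub (I * (π / 2))).sub hsm |>.sub_const _)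
  have y1 := (triY (y := af s - b) o0 o1 wp ⟨kCm, iCm⟩ (tsub nb)).hasDeriv
    (A := fun t => yA (af t - b))
    (B := fun t => yB (af t - b)) ((((haf.sub_const b).const_mul 2).const_mul I).const_sub (I * π))
    ((((haf.sub_const b).const_mul I).sub hCm).sub_const _)
  have y2 := (triY (y := af s + b) o0 o1 wp ⟨kCp, iCp⟩ (tadd nb)).hasDeriv
    (A := fun t => yA (af t + b))
    (B := fun t => yB (af t + b)) ((((haf.add_const b).const_mul 2).const_mul I).const_sub (I * π))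
    ((((haf.add_const b).const_mul I).sub hCp).sub_const _)
  have y3 := (triY (y := af s - d) o0 o1 wp ⟨kDm, iDm⟩ (tsub nd)).hasDeriv
    (A := fun t => yA (af t - d))
    (B := fun t => yB (af t - d)) ((((haf.sub_const d).const_mul 2).const_mul I).const_sub (I * π))
    ((((haf.sub_const d).const_mul I).sub hDm).sub_const _)
  have y4 := (triY (y := af s + d) o0 o1 wp ⟨kDp, iDp⟩ (tadd nd)).hasDeriv
    (A := fun t => yA (af t + d))
    (B := fun t => yB (af t + d)) ((((haf.add_const d).const_mul 2).const_mul I).const_sub (I * π))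
    ((((haf.add_const d).const_mul I).sub hDp).sub_const _)
  -- the correction terms
  have ez : ∀ {x : ℂ}, 1 - I * exp (I * (x + s * c)) ≠ 0 →
      |(log (1 - I * exp (I * (x + s * c)))).im| < π →
      1 - I * exp (I * -(x + s * c)) ≠ 0 → |(log (1 - I * exp (I * -(x + s * c)))).im| < π →
      (∃ pz, HasDerivAt (fun t : ℝ => zB (x + t * c)) pz s) ∧
      (∃ pz, HasDerivAt (fun t : ℝ => zB (-(x + t * c))) pz s) := by
    intro x k1 l1 k3 l2
    have d1 := hcf.const_add x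
    obtain ⟨p1, e1⟩ := dlog' (((hexp (d1.const_mul I)).const_mul I).const_sub 1) k1 l1
    obtain ⟨p2, e2⟩ := dlog' (((hexp (d1.neg.const_mul I)).const_mul I).const_sub 1) k3 l2
    exact ⟨⟨_, e1.neg⟩, ⟨_, e2.neg⟩⟩
  obtain ⟨⟨pb1, hb1⟩, ⟨pb2, hb2⟩⟩ := ez (x := b) h.z1.1 (le4' h.z1.2) h.z2.1 (le4 h.z2.2)
  obtain ⟨⟨pd1, hd1⟩, ⟨pd2, hd2⟩⟩ := ez (x := d) h.z3.1 (le4' h.z3.2) h.z4.1 (le4 h.z4.2)
  have q5 : pb1 + pb2 = -pK := by
    have := deq (hb1.add hb2) ((hK.const_sub (I * (π / 2))).sub_const ((Real.log 2 : ℝ) : ℂ)) (by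
      filter_upwards [hev] with t ht
      obtain ⟨_, _, _, ht⟩ := ht
      exact z_sum ht.s1.hδ ht.z1 ht.z2 ht.facts.2.2.1)
    exact this
  have q6 : pd1 + pd2 = -pE := by
    have := deq (hd1.add hd2) ((hE.const_sub (I * (π / 2))).sub_const ((Real.log 2 : ℝ) : ℂ)) (by
      filter_upwards [hev] with t ht
      obtain ⟨_, _, _, ht⟩ := ht
      exact z_sum ht.s1.hδ ht.z3 ht.z4 ht.facts.2.2.2.2.1)
    exact this
  have s5 := z_sum o0 h.z1 h.z2 ⟨kK, iK⟩
  have s6 := z_sum o0 h.z3 h.z4 ⟨kE, iE⟩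
  have rbc : |(b + s * c).re| ≤ 2 * δ := by
    rw [abs_le] at nb nc
    rw [Complex.add_re, abs_le]
    constructor <;> linarith
  have rdc : |(d + s * c).re| ≤ 2 * δ := by
    rw [abs_le] at nd nc
    rw [Complex.add_re, abs_le]
    constructor <;> linarith
  have nrbc : |(-(b + s * c)).re| ≤ 2 * δ := by rwa [Complex.neg_re, abs_neg]
  have nrdc : |(-(d + s * c)).re| ≤ 2 * δ := by rwa [Complex.neg_re, abs_neg]
  have z1 := (triZ o0 o1 o2 o3 h.z1 rbc).hasDeriv (A := fun t : ℝ => zA (b + t * c))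
    (B := fun t : ℝ => zB (b + t * c))
    (((hcf.const_add b).const_mul I).const_add (I * (π / 2))) hb1
  have z2 := (triZ (x := -(b + s * c)) (θ := -θ) o0 o1 (by linarith) (by linarith)
      ⟨h.z2.1, by rw [show π / 4 - -θ / 2 = π / 4 + θ / 2 by ring]; exact h.z2.2⟩ nrbc).hasDeriv
    (A := fun t : ℝ => zA (-(b + t * c))) (B := fun t : ℝ => zB (-(b + t * c)))
    (((hcf.const_add b).neg.const_mul I).const_add (I * (π / 2))) hb2
  have z3 := (triZ o0 o1 o2 o3 h.z3 rdc).hasDeriv (A := fun t : ℝ => zA (d + t * c))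
    (B := fun t : ℝ => zB (d + t * c))
    (((hcf.const_add d).const_mul I).const_add (I * (π / 2))) hd1
  have z4 := (triZ (x := -(d + s * c)) (θ := -θ) o0 o1 (by linarith) (by linarith)
      ⟨h.z4.1, by rw [show π / 4 - -θ / 2 = π / 4 + θ / 2 by ring]; exact h.z4.2⟩ nrdc).hasDeriv
    (A := fun t : ℝ => zA (-(d + t * c))) (B := fun t : ℝ => zB (-(d + t * c)))
    (((hcf.const_add d).neg.const_mul I).const_add (I * (π / 2))) hd2
  have V := (((v1.add v2).add (w1.add w2)).add (v3.add v4)).add (w3.add w4)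
  have H := (((((((x1.const_mul 2).add x2).add x3).add y1).add y2).add y3).add y4)
  have T := ((V.sub H).add ((z1.sub z2).const_mul 2)).sub ((z3.sub z4).const_mul 2)
  refine T.congr_deriv ?_
  clear T V H v1 v2 v3 v4 w1 w2 w3 w4 x1 x2 x3 y1 y2 y3 y4 z1 z2 z3 z4
  have e1 := congrArg Complex.re h.r1
  have e2 := congrArg Complex.re h.r2
  have e3 := congrArg Complex.re h.r3
  have e4 := congrArg Complex.re h.r4
  have e5 := congrArg Complex.re s5
  have e6 := congrArg Complex.re s6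
  have m1 := congrArg Complex.im q1
  have m2 := congrArg Complex.im q2
  have m5 := congrArg Complex.im q5
  have m6 := congrArg Complex.im q6
  simp only [Complex.add_re, Complex.sub_re, re_two, re_I_mul, half_im, Complex.ofReal_re] at e1 e2 e3 e4 e5 e6
  simp only [Complex.add_im, Complex.sub_im, im_two, im_I_mul, Complex.neg_im] at m1 m2 m5 m6
  have key := vol_alg (log (sin (af s))).re (log (sin (af s + s * c))).re
    (log (sin (af s - s * c))).re (log (cos (af s + b))).re (log (cos (af s - b))).re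
    (log (cos (af s + d))).re (log (cos (af s - d))).re (log (cos b)).re (log (cos d)).re
    (log (cos (b + s * c))).re (log (cos (b - s * c))).re (log (cos (d + s * c))).re
    (log (cos (d - s * c))).re (ups (af s) b (s * c)).re (ups (af s) (-d) (-(s * c))).re
    (af s).im b.im d.im ((s : ℂ) * c).im (Real.log 2)
    psa.im psp.im psm.im pCp.im pCm.im pDp.im pDm.im pK.im
    (-2 * psa.im + pCp.im + pCm.im - pK.im) pE.im (psp.im + psm.im - pCp.im - pCm.im - pE.im)
    pU.im pUt.im a'.re c.re (zB (b + s * c)).re (zB (-(b + s * c))).re pb1.im pb2.im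
    (zB (d + s * c)).re (zB (-(d + s * c))).re pd1.im pd2.im
    (by linarith) (by linarith) (by linarith) (by linarith) (by linarith) (by linarith)
    (by linarith) (by linarith) (by linarith) (by linarith) (by linarith) (by linarith)
  obtain ⟨t1, t2, t3, t4, t5, t6, t7, t8⟩ := top_eq (af s) d (s * c)
  simp only [t1, t2, t3, t4, t5, t6, t7, t8]
  simp only [aA1, aB1, aA2, aB2, bA1, bB1, bA2, bB2, xA, xB, yA, yB,
    zA, Complex.add_re, Complex.sub_re, Complex.add_im, Complex.sub_im, re_I_mul, im_I_mul,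
    half_im, im_two, re_two, Complex.neg_im, Complex.neg_re, Complex.ofReal_re, Complex.ofReal_im]
  linear_combination key

end Pool.Agent.Y482.Cy
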